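import Pool.Agent.H652Z.Strip.Line

/-!
Descent through the nested gaps.
-/

namespace Pool.Agent.H652Z.Strip

theorem mob_lt {y κ p u v : ℝ} (hκ : 0 < κ) (huv : u < v) (h : p < u ∨ v < p) :
    mob y κ p u < mob y κ p v := by
  have hu : u ≠ p := by rcases h with h | h <;> intro e <;> linarith
  have hv : v ≠ p := by rcases h with h | h <;> intro e <;> linarith
  rw [← sub_pos, mob_sub hv hu]
  refine div_pos (mul_pos hκ (by linarith)) ?_
  rcases h with h | h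
  · exact mul_pos (by linarith) (by linarith)
  · exact mul_pos_of_neg_of_neg (by linarith) (by linarith)

theorem mob_comp {y κ p c r b : ℝ} (hr : r ≠ 0) (h1 : p ≠ c) (h2 : b ≠ c) (h3 : b ≠ mob c r c p) :
    mob (mob y κ p c) (κ * r / (c - p) ^ 2) (mob c r c p) b = mob y κ p (mob c r c b) := by
  have a1 : c - p ≠ 0 := sub_ne_zero.2 h1.symm
  have a1' : p - c ≠ 0 := sub_ne_zero.2 h1
  have a2 : b - c ≠ 0 := sub_ne_zero.2 h2
  have a3 : (b - c) * (c - p) - r ≠ 0 := by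
    intro e
    apply h3
    unfold mob
    field_simp
    linarith
  have e1 : b - mob c r c p = ((b - c) * (c - p) - r) / (c - p) := by
    unfold mob; field_simp; ring
  have e2 : mob c r c b - p = ((b - c) * (c - p) - r) / (b - c) := by
    unfold mob; field_simp; ring
  rw [mob, e1, mob, mob, e2]
  obtain ⟨d, hd⟩ : ∃ d, d = (b - c) * (c - p) - r := ⟨_, rfl⟩
  rw [← hd] at a3 ⊢
  obtain rfl : r = (b - c) * (c - p) - d := by linarith
  field_simp
  ring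

theorem CR.sand {α u v β q q1 q2 : ℝ} (h : CR α u v β) (h1 : α ≤ u) (h2 : u ≤ q) (h3 : q ≤ v)
    (h4 : v ≤ β) (h5 : α < β) (h6 : q1 ≤ q) (h7 : q ≤ q2) (h8 : ¬ (α ≤ q1 ∧ q2 ≤ β)) :
    v - u ≤ (q2 - q1) / 8 := by
  obtain ⟨a, b⟩ := h.small h1 (h2.trans h3) h4 h5
  rcases not_and_or.1 h8 with c | c <;> linarith [not_le.1 c]

namespace Setup

variable {ι : Type} {D : Setup ι}

theorem side {j k : ι} (h : k ≠ j) :
    D.c j + D.ρ j < D.c k - D.ρ k ∨ D.c k + D.ρ k < D.c j - D.ρ j := by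
  rcases lt_abs.1 (D.sep0 k j h) with a | a
  · exact Or.inl (by linarith)
  · exact Or.inr (by linarith)

theorem out_of_ne {j k : ι} (h : k ≠ j) {x : ℝ} (hx : |x - D.c k| ≤ D.ρ k) :
    D.ρ j < |x - D.c j| := by
  by_contra hc
  exact h (D.uniq hx (not_lt.1 hc))

theorem abs_right (k : ι) : |D.c k + D.ρ k - D.c k| = D.ρ k := by
  simp [abs_of_pos (D.pos k)]

theorem abs_left (k : ι) : |D.c k - D.ρ k - D.c k| = D.ρ k := by
  simp [abs_of_pos (D.pos k)]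

theorem ne_of_out {j : ι} {p a : ℝ} (hp : |p - D.c j| < D.ρ j) (ha : D.ρ j ≤ |a - D.c j|) :
    a ≠ p := by
  rintro rfl
  linarith

theorem CR_basic {j k : ι} (h : k ≠ j) :
    CR (D.c j + D.ρ j) (D.c k - D.ρ k) (D.c k + D.ρ k) (D.c j - D.ρ j) := by
  have hj := D.pos j
  have hk := D.pos k
  have hs := D.sep k j h
  unfold CR
  rw [← abs_mul, ← abs_mul]
  have e1 : (D.c k + D.ρ k - (D.c k - D.ρ k)) * (D.c j - D.ρ j - (D.c j + D.ρ j)) =
      -(4 * D.ρ k * D.ρ j) := by ring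
  have e2 : (D.c k - D.ρ k - (D.c j + D.ρ j)) * (D.c j - D.ρ j - (D.c k + D.ρ k)) =
      -(|D.c k - D.c j| ^ 2 - (D.ρ k + D.ρ j) ^ 2) := by rw [sq_abs]; ring
  rw [e1, e2, abs_neg, abs_neg, abs_of_pos (by positivity)]
  refine le_trans ?_ (mul_le_mul_of_nonneg_left (le_abs_self _) (by norm_num))
  have hm : 0 < min (D.ρ k) (D.ρ j) := lt_min hk hj
  have h2 : (D.ρ k + D.ρ j + 16 * min (D.ρ k) (D.ρ j)) ^ 2 ≤ |D.c k - D.c j| ^ 2 :=
    pow_le_pow_left₀ (by positivity) hs 2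
  rcases le_total (D.ρ k) (D.ρ j) with a | a
  · rw [min_eq_left a] at h2; nlinarith
  · rw [min_eq_right a] at h2; nlinarith

theorem mob_mem {j : ι} {p κ y a : ℝ} (hp : |p - D.c j| < D.ρ j) (hκ : 0 < κ)
    (ha : D.ρ j ≤ |a - D.c j|) :
    mob y κ p (D.c j + D.ρ j) ≤ mob y κ p a ∧ mob y κ p a ≤ mob y κ p (D.c j - D.ρ j) := by
  obtain ⟨p1, p2⟩ := abs_lt.1 hp
  have b1 : mob y κ p (D.c j + D.ρ j) < y := mob_lt_of_gt hκ (by linarith)
  have b2 : y < mob y κ p (D.c j - D.ρ j) := lt_mob_of_lt hκ (by linarith)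
  rcases le_abs'.1 ha with b | b
  · exact ⟨(b1.trans (lt_mob_of_lt hκ (by linarith))).le,
      mob_le hκ.le (by linarith) (Or.inr (by linarith))⟩
  · exact ⟨mob_le hκ.le (by linarith) (Or.inl (by linarith)),
      ((mob_lt_of_gt hκ (by linarith)).trans b2).le⟩

theorem mob_inv_out {j : ι} {p κ y q : ℝ} (hp : |p - D.c j| < D.ρ j) (hκ : 0 < κ)
    (h1 : mob y κ p (D.c j + D.ρ j) ≤ q) (h2 : q ≤ mob y κ p (D.c j - D.ρ j)) (hq : q ≠ y) :
    D.ρ j ≤ |mob p κ y q - D.c j| := by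
  obtain ⟨p1, p2⟩ := abs_lt.1 hp
  rcases lt_or_gt_of_ne hq with b | b
  · have := mob_le (y := p) hκ.le h1 (Or.inr b)
    rw [mob_mob hκ.ne' (by intro e; linarith)] at this
    exact le_abs'.2 (Or.inr (by linarith))
  · have := mob_le (y := p) hκ.le h2 (Or.inl b)
    rw [mob_mob hκ.ne' (by intro e; linarith)] at this
    exact le_abs'.2 (Or.inl (by linarith))

/-- monotonicity of the chart on another gap -/
theorem mob_le_gap {j k : ι} (h : k ≠ j) {p κ y u v : ℝ} (hp : |p - D.c j| < D.ρ j) (hκ : 0 < κ)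
    (h1 : D.c k - D.ρ k ≤ u) (h2 : u ≤ v) (h3 : v ≤ D.c k + D.ρ k) :
    mob y κ p u ≤ mob y κ p v := by
  obtain ⟨p1, p2⟩ := abs_lt.1 hp
  refine mob_le hκ.le h2 ?_
  rcases side (D := D) h with a | a
  · exact Or.inl (by linarith)
  · exact Or.inr (by linarith)

theorem mob_lt_gap {j k : ι} (h : k ≠ j) {p κ y : ℝ} (hp : |p - D.c j| < D.ρ j) (hκ : 0 < κ) :
    mob y κ p (D.c k - D.ρ k) < mob y κ p (D.c k + D.ρ k) := by
  obtain ⟨p1, p2⟩ := abs_lt.1 hp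
  refine mob_lt hκ (by linarith [D.pos k]) ?_
  rcases side (D := D) h with a | a
  · exact Or.inl (by linarith)
  · exact Or.inr (by linarith)

theorem g_in {j k : ι} (h : k ≠ j) {p : ℝ} (hp : |p - D.c j| < D.ρ j) :
    |D.g k p - D.c k| < D.ρ k := mob_in' (D.pos k) (out_of_ne h.symm hp.le)

theorem step_eq {j k : ι} (h : k ≠ j) {p κ y b : ℝ} (hp : |p - D.c j| < D.ρ j)
    (hb : D.ρ k ≤ |b - D.c k|) :
    mob (mob y κ p (D.c k)) (κ * D.ρ k ^ 2 / (D.c k - p) ^ 2) (D.g k p) b =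
      mob y κ p (D.g k b) := by
  have hk := D.pos k
  have hc : |D.c k - D.c k| < D.ρ k := by simpa using hk
  exact mob_comp (pow_pos hk 2).ne' (ne_of_out hc (out_of_ne h.symm hp.le).le) (ne_of_out hc hb)
    (ne_of_out (g_in h hp) hb)

theorem descent (Inv : ι → ℝ → ℝ → ℝ → Prop) (h0 : ∀ k, Inv k (D.c k) (D.ρ k ^ 2) (D.c k))
    (hs : ∀ j p κ y k, |p - D.c j| < D.ρ j → 0 < κ → k ≠ j → Inv j p κ y →
      Inv k (D.g k p) (κ * D.ρ k ^ 2 / (D.c k - p) ^ 2) (mob y κ p (D.c k)))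
    {q1 q2 : ℝ} (hq : q1 < q2) :
    (∀ k, ¬ (D.c k - D.ρ k ≤ q1 ∧ q2 ≤ D.c k + D.ρ k)) ∨
      ∃ j p κ y, |p - D.c j| < D.ρ j ∧ 0 < κ ∧ Inv j p κ y ∧ mob y κ p (D.c j + D.ρ j) ≤ q1 ∧
        q2 ≤ mob y κ p (D.c j - D.ρ j) ∧
        ∀ k, k ≠ j → ¬ (mob y κ p (D.c k - D.ρ k) ≤ q1 ∧ q2 ≤ mob y κ p (D.c k + D.ρ k)) := by
  by_contra hc
  push Not at hc
  obtain ⟨⟨k0, k1, k2⟩, hc⟩ := hc
  have key : ∀ n : ℕ, ∃ j p κ y, |p - D.c j| < D.ρ j ∧ 0 < κ ∧ Inv j p κ y ∧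
      mob y κ p (D.c j + D.ρ j) ≤ q1 ∧ q2 ≤ mob y κ p (D.c j - D.ρ j) ∧
      mob y κ p (D.c j - D.ρ j) - mob y κ p (D.c j + D.ρ j) ≤ 2 * (1 / 8) ^ n := by
    intro n
    induction n with
    | zero =>
      refine ⟨k0, D.c k0, D.ρ k0 ^ 2, D.c k0, by simpa using D.pos k0, pow_pos (D.pos k0) 2, h0 k0,
        ?_, ?_, ?_⟩
      · rw [mob_right (D.pos k0)]; exact k1
      · rw [mob_left (D.pos k0)]; exact k2
      · rw [mob_right (D.pos k0), mob_left (D.pos k0)]; linarith [D.le1 k0]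
    | succ n ih =>
      obtain ⟨j, p, κ, y, a1, a2, a3, a4, a5, a6⟩ := ih
      obtain ⟨k, b1, b2, b3⟩ := hc j p κ y a1 a2 a3 a4 a5
      have hk := D.pos k
      have hc' : |D.c k - D.c k| < D.ρ k := by simpa using hk
      have hpk : D.c k - p ≠ 0 :=
        sub_ne_zero.2 (ne_of_out hc' (out_of_ne b1.symm a1.le).le).symm
      have e1 := step_eq (κ := κ) (y := y) b1 a1 (abs_right k).ge
      have e2 := step_eq (κ := κ) (y := y) b1 a1 (abs_left k).ge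
      rw [g_right] at e1
      rw [g_left] at e2
      refine ⟨k, D.g k p, κ * D.ρ k ^ 2 / (D.c k - p) ^ 2, mob y κ p (D.c k), g_in b1 a1,
        by positivity, hs j p κ y k a1 a2 b1 a3, ?_, ?_, ?_⟩
      · rw [e1]; exact b2
      · rw [e2]; exact b3
      · rw [e1, e2]
        have o1 := (out_of_ne (D := D) b1 (abs_left k).le).le
        have o2 := (out_of_ne (D := D) b1 (abs_right k).le).le
        have cr := (CR_basic (D := D) b1).map (y := y) (κ := κ) (p := p)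
          (ne_of_out a1 (abs_right j).ge) (ne_of_out a1 o1) (ne_of_out a1 o2)
          (ne_of_out a1 (abs_left j).ge)
        have m1 := mob_mem (y := y) a1 a2 o1
        have m2 := mob_mem (y := y) a1 a2 o2
        have := (cr.small m1.1 (mob_lt_gap b1 a1 a2).le m2.2 (by linarith)).1
        rw [pow_succ]
        linarith
  obtain ⟨n, hn⟩ := exists_pow_lt_of_lt_one (x := (q2 - q1) / 2) (y := (1 / 8 : ℝ))
    (by linarith) (by norm_num)
  obtain ⟨j, p, κ, y, -, -, -, a4, a5, a6⟩ := key n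
  linarith

theorem eq_univ {Λ : Set ℝ} (hΛ : IsClosed Λ) (hE : ∀ x, D.E x → x ∈ Λ)
    (hg : ∀ k x, x ≠ D.c k → x ∈ Λ → D.g k x ∈ Λ) (x : ℝ) : x ∈ Λ := by
  by_contra hx
  obtain ⟨ε, hε, hb⟩ := Metric.isOpen_iff.1 hΛ.isOpen_compl x hx
  have hQ : ∀ q, x - ε / 2 ≤ q → q ≤ x + ε / 2 → q ∉ Λ := fun q h1 h2 =>
    hb (by rw [Metric.mem_ball, Real.dist_eq, abs_lt]; constructor <;> linarith)
  rcases descent (D := D) (fun j p κ y => ∀ a ∈ Λ, D.ρ j ≤ |a - D.c j| → mob y κ p a ∈ Λ)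
    (fun k a ha h => hg k a (ne_of_out (by simpa using D.pos k) h) ha)
    (fun j p κ y k a1 _ a3 a4 b hb1 hb2 => by
      rw [step_eq a3 a1 hb2]
      exact a4 _ (hg k b (ne_of_out (by simpa using D.pos k) hb2) hb1)
        (out_of_ne a3 (mob_in (D.pos k) hb2)).le)
    (q1 := x - ε / 2) (q2 := x + ε / 2) (by linarith) with h | ⟨j, p, κ, y, a1, a2, a3, a4, a5, a6⟩
  · rcases E_or (D := D) x with h1 | ⟨k, hk⟩
    · exact hx (hE x h1)
    · obtain ⟨b1, b2⟩ := abs_lt.1 hk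
      rcases not_and_or.1 (h k) with c | c
      · exact hQ _ (not_le.1 c).le (by linarith) (hE _ (D.E_left k))
      · exact hQ _ (by linarith) (not_le.1 c).le (hE _ (D.E_right k))
  · obtain ⟨q, q1, q2, q3⟩ : ∃ q, x - ε / 2 ≤ q ∧ q ≤ x + ε / 2 ∧ q ≠ y := by
      by_cases e : x = y
      · exact ⟨x + ε / 2, by linarith, le_rfl, by intro e'; linarith⟩
      · exact ⟨x, by linarith, by linarith, e⟩
    have o := mob_inv_out a1 a2 (a4.trans q1) (q2.trans a5) q3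
    have e : mob y κ p (mob p κ y q) = q := mob_mob a2.ne' q3
    rcases E_or (D := D) (mob p κ y q) with h1 | ⟨k, hk⟩
    · exact hQ q q1 q2 (e ▸ a3 _ (hE _ h1) o)
    · have hkj : k ≠ j := by rintro rfl; linarith
      obtain ⟨b1, b2⟩ := abs_lt.1 hk
      have c1 := mob_le_gap (y := y) hkj a1 a2 le_rfl (v := mob p κ y q) (by linarith) (by linarith)
      have c2 := mob_le_gap (y := y) hkj a1 a2 (u := mob p κ y q) (by linarith) (by linarith) le_rfl
      rw [e] at c1 c2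
      rcases not_and_or.1 (a6 k hkj) with c | c
      · exact hQ _ (not_le.1 c).le (by linarith)
          (a3 _ (hE _ (D.E_left k)) (out_of_ne hkj (abs_left k).le).le)
      · exact hQ _ (by linarith) (not_le.1 c).le
          (a3 _ (hE _ (D.E_right k)) (out_of_ne hkj (abs_right k).le).le)

end Setup

end Pool.Agent.H652Z.Strip
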