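import Pool.Agent.H652Z.Strip.Mat

/-!
The equivariant boundary map obtained by collapsing the complement of the gaps.
-/

namespace Pool.Agent.H652Z.Strip

open Filter Topology

/-- the Moebius map `x ↦ y - κ / (x - p)` -/
noncomputable def mob (y κ p x : ℝ) : ℝ := y - κ / (x - p)

theorem mob_sub {y κ p u v : ℝ} (hu : u ≠ p) (hv : v ≠ p) :
    mob y κ p u - mob y κ p v = κ * (u - v) / ((u - p) * (v - p)) := by
  have := sub_ne_zero.2 hu
  have := sub_ne_zero.2 hv
  unfold mob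
  field_simp
  ring

theorem mob_le {y κ p u v : ℝ} (hκ : 0 ≤ κ) (huv : u ≤ v) (h : p < u ∨ v < p) :
    mob y κ p u ≤ mob y κ p v := by
  have hu : u ≠ p := by rcases h with h | h <;> intro e <;> linarith
  have hv : v ≠ p := by rcases h with h | h <;> intro e <;> linarith
  rw [← sub_nonneg, mob_sub hv hu]
  refine div_nonneg (mul_nonneg hκ (by linarith)) ?_
  rcases h with h | h
  · exact mul_nonneg (by linarith) (by linarith)
  · exact mul_nonneg_of_nonpos_of_nonpos (by linarith) (by linarith)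

theorem mob_lt_of_gt {y κ p u : ℝ} (hκ : 0 < κ) (h : p < u) : mob y κ p u < y := by
  have : 0 < κ / (u - p) := div_pos hκ (by linarith)
  unfold mob; linarith

theorem lt_mob_of_lt {y κ p u : ℝ} (hκ : 0 < κ) (h : u < p) : y < mob y κ p u := by
  have : κ / (u - p) < 0 := div_neg_of_pos_of_neg hκ (by linarith)
  unfold mob; linarith

theorem mob_mob {y κ p x : ℝ} (hκ : κ ≠ 0) (hx : x ≠ p) : mob p κ y (mob y κ p x) = x := by
  have := sub_ne_zero.2 hx
  unfold mob
  rw [sub_sub_cancel_left]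
  field_simp
  ring

theorem mob_right {c ρ : ℝ} (h : 0 < ρ) : mob c (ρ ^ 2) c (c + ρ) = c - ρ := by
  have := h.ne'
  unfold mob
  rw [add_sub_cancel_left]
  field_simp

theorem mob_left {c ρ : ℝ} (h : 0 < ρ) : mob c (ρ ^ 2) c (c - ρ) = c + ρ := by
  have := h.ne'
  unfold mob
  rw [sub_sub_cancel_left]
  field_simp
  ring

theorem mob_ne {y κ p x : ℝ} (hκ : κ ≠ 0) (hx : x ≠ p) : mob y κ p x ≠ y := by
  have := sub_ne_zero.2 hx
  unfold mob
  intro h
  have h2 : κ / (x - p) = 0 := by linarith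
  rcases div_eq_zero_iff.1 h2 with h3 | h3
  · exact hκ h3
  · exact this h3

/-- small cross ratio -/
def CR (α u v β : ℝ) : Prop := |v - u| * |β - α| ≤ 1 / 8 * (|u - α| * |β - v|)

theorem CR.map {α u v β y κ p : ℝ} (h : CR α u v β) (h1 : α ≠ p) (h2 : u ≠ p) (h3 : v ≠ p)
    (h4 : β ≠ p) : CR (mob y κ p α) (mob y κ p u) (mob y κ p v) (mob y κ p β) := by
  unfold CR at *
  rw [mob_sub h3 h2, mob_sub h4 h1, mob_sub h2 h1, mob_sub h4 h3]
  simp only [abs_div, abs_mul]
  have a1 := abs_pos.2 (sub_ne_zero.2 h1)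
  have a2 := abs_pos.2 (sub_ne_zero.2 h2)
  have a3 := abs_pos.2 (sub_ne_zero.2 h3)
  have a4 := abs_pos.2 (sub_ne_zero.2 h4)
  have e1 : |κ| * |v - u| / (|v - p| * |u - p|) * (|κ| * |β - α| / (|β - p| * |α - p|)) =
      (|v - u| * |β - α|) * (|κ| * |κ| / (|v - p| * |u - p| * |β - p| * |α - p|)) := by
    field_simp
  have e2 : 1 / 8 * (|κ| * |u - α| / (|u - p| * |α - p|) * (|κ| * |β - v| / (|β - p| * |v - p|))) =
      (1 / 8 * (|u - α| * |β - v|)) * (|κ| * |κ| / (|v - p| * |u - p| * |β - p| * |α - p|)) := by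
    field_simp
  rw [e1, e2]
  exact mul_le_mul_of_nonneg_right h (by positivity)

theorem CR.small {α u v β : ℝ} (h : CR α u v β) (h1 : α ≤ u) (h2 : u ≤ v) (h3 : v ≤ β)
    (h4 : α < β) : v - u ≤ (u - α) / 8 ∧ v - u ≤ (β - v) / 8 := by
  unfold CR at h
  rw [abs_of_nonneg (by linarith), abs_of_nonneg (by linarith), abs_of_nonneg (by linarith),
    abs_of_nonneg (by linarith)] at h
  have hd : 0 < β - α := by linarith
  constructor
  · refine le_of_mul_le_mul_right ?_ hd
    nlinarith [mul_nonneg (sub_nonneg.2 h1) (sub_nonneg.2 (h1.trans h2))]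
  · refine le_of_mul_le_mul_right ?_ hd
    nlinarith [mul_nonneg (sub_nonneg.2 h3) (sub_nonneg.2 (h2.trans h3))]

/-- the data: well separated gaps, and the collapsing map -/
structure Setup (ι : Type) extends Cfg ι where
  /-- the collapsing map -/
  H : ℝ → ℝ
  sep : ∀ i j, i ≠ j → ρ i + ρ j + 16 * min (ρ i) (ρ j) ≤ |c i - c j|
  le1 : ∀ i, ρ i ≤ 1
  Hlo : ∀ x y, x ≤ y → (y - x) / 2 ≤ H y - H x
  Hhi : ∀ x y, x ≤ y → H y - H x ≤ y - x
  Hgap : ∀ i x, |x - c i| ≤ ρ i → H x = H (c i) + (x - c i)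
  dense : ∀ x, (∀ i, ρ i ≤ |x - c i|) → ∀ ε, 0 < ε → ∃ k, |x - c k| + ρ k < ε
  bdd : ∃ B, ∀ x, |H x - x / 2| ≤ B
  ne : Nonempty ι

namespace Setup

variable {ι : Type} (D : Setup ι)

/-- the deformed configuration -/
def P' : Cfg ι := ⟨fun i => D.H (D.c i), D.ρ, D.pos⟩

/-- points off the open gaps -/
def E (x : ℝ) : Prop := ∀ i, D.ρ i ≤ |x - D.c i|

/-- the half-turns on the line -/
noncomputable def g (k : ι) (x : ℝ) : ℝ := mob (D.c k) (D.ρ k ^ 2) (D.c k) x

/-- the deformed half-turns on the line -/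
noncomputable def g' (k : ι) (x : ℝ) : ℝ := mob (D.H (D.c k)) (D.ρ k ^ 2) (D.H (D.c k)) x

theorem sep0 : D.toCfg.Sep := fun i j h => by
  have := D.sep i j h
  have := lt_min (D.pos i) (D.pos j)
  linarith

theorem uniq {i j : ι} {x : ℝ} (hi : |x - D.c i| ≤ D.ρ i) (hj : |x - D.c j| ≤ D.ρ j) : i = j := by
  by_contra h
  have h1 := D.sep0 i j h
  have h2 : |D.c i - D.c j| ≤ |x - D.c j| + |x - D.c i| := by
    have : D.c i - D.c j = (x - D.c j) - (x - D.c i) := by ring
    rw [this]; exact abs_sub _ _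
  linarith

theorem E_of_abs {k : ι} {x : ℝ} (h : |x - D.c k| = D.ρ k) : D.E x := by
  intro i
  by_contra hc
  obtain rfl := D.uniq (not_le.1 hc).le h.le
  exact hc h.ge

theorem E_right (k : ι) : D.E (D.c k + D.ρ k) :=
  D.E_of_abs (k := k) (by simp [abs_of_pos (D.pos k)])

theorem E_left (k : ι) : D.E (D.c k - D.ρ k) :=
  D.E_of_abs (k := k) (by simp [abs_of_pos (D.pos k)])

theorem H_right (k : ι) : D.H (D.c k + D.ρ k) = D.H (D.c k) + D.ρ k := by
  rw [D.Hgap k _ (by simp [abs_of_pos (D.pos k)])]; ring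

theorem H_left (k : ι) : D.H (D.c k - D.ρ k) = D.H (D.c k) - D.ρ k := by
  rw [D.Hgap k _ (by simp [abs_of_pos (D.pos k)])]; ring

theorem H_mono : Monotone D.H := fun x y h => by linarith [D.Hlo x y h]

theorem H_ratio (x y : ℝ) : ∃ μ, 1 / 2 ≤ μ ∧ μ ≤ 1 ∧ D.H y - D.H x = μ * (y - x) := by
  rcases lt_trichotomy x y with h | rfl | h
  · have hd : 0 < y - x := by linarith
    refine ⟨(D.H y - D.H x) / (y - x), ?_, ?_, by field_simp⟩
    · rw [le_div_iff₀ hd]; linarith [D.Hlo x y h.le]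
    · rw [div_le_iff₀ hd]; linarith [D.Hhi x y h.le]
  · exact ⟨1, by norm_num, le_rfl, by simp⟩
  · have hd : 0 < x - y := by linarith
    refine ⟨(D.H x - D.H y) / (x - y), ?_, ?_, by field_simp; ring⟩
    · rw [le_div_iff₀ hd]; linarith [D.Hlo y x h.le]
    · rw [div_le_iff₀ hd]; linarith [D.Hhi y x h.le]

theorem sep' : D.P'.Sep := by
  have key : ∀ i j, i ≠ j → D.c i ≤ D.c j → D.ρ i + D.ρ j < D.H (D.c j) - D.H (D.c i) := by
    intro i j h hle
    have h1 := D.sep0 i j h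
    rw [abs_sub_comm, abs_of_nonneg (by linarith)] at h1
    have h2 := D.Hlo (D.c i + D.ρ i) (D.c j - D.ρ j) (by linarith)
    rw [H_left, H_right] at h2
    linarith
  intro i j h
  change D.ρ i + D.ρ j < |D.H (D.c i) - D.H (D.c j)|
  rcases le_total (D.c i) (D.c j) with hle | hle
  · rw [abs_sub_comm]; exact (key i j h hle).trans_le (le_abs_self _)
  · rw [add_comm]; exact (key j i h.symm hle).trans_le (le_abs_self _)

theorem g_right (k : ι) : D.g k (D.c k + D.ρ k) = D.c k - D.ρ k := mob_right (D.pos k)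

theorem g_left (k : ι) : D.g k (D.c k - D.ρ k) = D.c k + D.ρ k := mob_left (D.pos k)

theorem g_g {k : ι} {x : ℝ} (h : x ≠ D.c k) : D.g k (D.g k x) = x :=
  mob_mob (pow_pos (D.pos k) 2).ne' h

theorem g_ne {k : ι} {x : ℝ} (h : x ≠ D.c k) : D.g k x ≠ D.c k :=
  mob_ne (pow_pos (D.pos k) 2).ne' h

theorem abs_mob {c ρ x : ℝ} (h : x ≠ c) : |mob c (ρ ^ 2) c x - c| * |x - c| = ρ ^ 2 := by
  have := sub_ne_zero.2 h
  rw [← abs_mul]
  have : (mob c (ρ ^ 2) c x - c) * (x - c) = -ρ ^ 2 := by unfold mob; field_simp; ring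
  rw [this, abs_neg, abs_of_nonneg (sq_nonneg _)]

theorem mob_in {c ρ x : ℝ} (hρ : 0 < ρ) (h : ρ ≤ |x - c|) : |mob c (ρ ^ 2) c x - c| ≤ ρ := by
  have hx : x ≠ c := by rintro rfl; simp at h; linarith
  have := abs_mob (ρ := ρ) hx
  by_contra hc
  push Not at hc
  nlinarith

theorem mob_in' {c ρ x : ℝ} (hρ : 0 < ρ) (h : ρ < |x - c|) : |mob c (ρ ^ 2) c x - c| < ρ := by
  have hx : x ≠ c := by rintro rfl; simp at h; linarith
  have := abs_mob (ρ := ρ) hx
  by_contra hc
  push Not at hc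
  nlinarith

theorem mob_out {c ρ x : ℝ} (hρ : 0 < ρ) (hx : x ≠ c) (h : |x - c| < ρ) :
    ρ < |mob c (ρ ^ 2) c x - c| := by
  have := abs_mob (ρ := ρ) hx
  by_contra hc
  push Not at hc
  have h1 := abs_nonneg (x - c)
  have h2 := abs_nonneg (mob c (ρ ^ 2) c x - c)
  nlinarith

/-- functions that agree with `H` off the gaps and preserve the gaps -/
def Adm (f : ℝ → ℝ) : Prop :=
  (∀ x, D.E x → f x = D.H x) ∧ ∀ i x, |x - D.c i| < D.ρ i → |f x - D.H (D.c i)| ≤ D.ρ i

variable {D}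

theorem E_or (x : ℝ) : D.E x ∨ ∃ i, |x - D.c i| < D.ρ i := by
  by_cases h : D.E x
  · exact Or.inl h
  · unfold E at h
    push Not at h
    exact Or.inr h

theorem Adm.ge {f : ℝ → ℝ} (hf : D.Adm f) {e x : ℝ} (he : D.E e) (h : e ≤ x) : D.H e ≤ f x := by
  rcases E_or (D := D) x with hx | ⟨j, hj⟩
  · rw [hf.1 x hx]; exact D.H_mono h
  · have h1 := he j
    have h2 := abs_le.1 (hf.2 j x hj)
    have h3 := abs_lt.1 hj
    have h4 : e ≤ D.c j - D.ρ j := by
      rcases le_abs'.1 h1 with a | a <;> linarith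
    have := D.H_mono h4
    rw [D.H_left] at this
    linarith

theorem Adm.le {f : ℝ → ℝ} (hf : D.Adm f) {e x : ℝ} (he : D.E e) (h : x ≤ e) : f x ≤ D.H e := by
  rcases E_or (D := D) x with hx | ⟨j, hj⟩
  · rw [hf.1 x hx]; exact D.H_mono h
  · have h1 := he j
    have h2 := abs_le.1 (hf.2 j x hj)
    have h3 := abs_lt.1 hj
    have h4 : D.c j + D.ρ j ≤ e := by
      rcases le_abs'.1 h1 with a | a <;> linarith
    have := D.H_mono h4
    rw [D.H_right] at this
    linarith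

theorem Adm.right {f : ℝ → ℝ} (hf : D.Adm f) {i : ι} {x : ℝ} (h : D.c i + D.ρ i ≤ x) :
    D.H (D.c i) + D.ρ i ≤ f x := D.H_right i ▸ hf.ge (D.E_right i) h

theorem Adm.left {f : ℝ → ℝ} (hf : D.Adm f) {i : ι} {x : ℝ} (h : x ≤ D.c i - D.ρ i) :
    f x ≤ D.H (D.c i) - D.ρ i := D.H_left i ▸ hf.le (D.E_left i) h

theorem Adm.out {f : ℝ → ℝ} (hf : D.Adm f) {i : ι} {x : ℝ} (h : D.ρ i ≤ |x - D.c i|) :
    D.ρ i ≤ |f x - D.H (D.c i)| := by
  rcases le_abs'.1 h with a | a
  · exact le_abs'.2 (Or.inl (by linarith [hf.left (i := i) (x := x) (by linarith)]))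
  · exact le_abs'.2 (Or.inr (by linarith [hf.right (i := i) (x := x) (by linarith)]))

theorem Adm.mono {f : ℝ → ℝ} (hf : D.Adm f)
    (h : ∀ i x y, |x - D.c i| < D.ρ i → |y - D.c i| < D.ρ i → x ≤ y → f x ≤ f y) :
    Monotone f := by
  intro x y hxy
  rcases E_or (D := D) x with hx | ⟨i, hi⟩
  · rw [hf.1 x hx]; exact hf.ge hx hxy
  · by_cases hy : |y - D.c i| < D.ρ i
    · exact h i x y hi hy hxy
    · have h3 := abs_lt.1 hi
      have h4 : D.c i + D.ρ i ≤ y := by
        rcases le_abs'.1 (not_lt.1 hy) with a | a <;> linarith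
      exact (hf.le (D.E_right i) (by linarith)).trans (hf.ge (D.E_right i) h4)

variable (D)

open Classical in
/-- one step of the recursive construction -/
noncomputable def Phi (f : ℝ → ℝ) (x : ℝ) : ℝ :=
  if h : ∃ i, |x - D.c i| < D.ρ i then
    (if x = D.c h.choose then D.H (D.c h.choose) else D.g' h.choose (f (D.g h.choose x)))
  else D.H x

open Classical in
/-- the start of the recursive construction -/
noncomputable def lo (x : ℝ) : ℝ :=
  if h : ∃ i, |x - D.c i| < D.ρ i then D.H (D.c h.choose) - D.ρ h.choose else D.H x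

theorem not_gap {x : ℝ} (hx : D.E x) : ¬ ∃ i, |x - D.c i| < D.ρ i := by
  rintro ⟨i, hi⟩
  exact absurd (hx i) (not_le.2 hi)

theorem Phi_E (f : ℝ → ℝ) {x : ℝ} (hx : D.E x) : D.Phi f x = D.H x := by
  unfold Phi; rw [dif_neg (D.not_gap hx)]

theorem Phi_c (f : ℝ → ℝ) (i : ι) : D.Phi f (D.c i) = D.H (D.c i) := by
  have h : ∃ j, |D.c i - D.c j| < D.ρ j := ⟨i, by simpa using D.pos i⟩
  have e : h.choose = i := D.uniq h.choose_spec.le (by simpa using (D.pos i).le)
  unfold Phi; rw [dif_pos h, e, if_pos rfl]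

theorem Phi_gap (f : ℝ → ℝ) {i : ι} {x : ℝ} (hx : |x - D.c i| < D.ρ i) (hc : x ≠ D.c i) :
    D.Phi f x = D.g' i (f (D.g i x)) := by
  have h : ∃ j, |x - D.c j| < D.ρ j := ⟨i, hx⟩
  have e : h.choose = i := D.uniq h.choose_spec.le hx.le
  unfold Phi; rw [dif_pos h, e, if_neg hc]

theorem lo_gap {i : ι} {x : ℝ} (hx : |x - D.c i| < D.ρ i) : D.lo x = D.H (D.c i) - D.ρ i := by
  have h : ∃ j, |x - D.c j| < D.ρ j := ⟨i, hx⟩
  have e : h.choose = i := D.uniq h.choose_spec.le hx.le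
  unfold lo; rw [dif_pos h, e]

theorem lo_adm : D.Adm D.lo := by
  refine ⟨fun x hx => ?_, fun i x hx => ?_⟩
  · unfold lo; rw [dif_neg (D.not_gap hx)]
  · rw [D.lo_gap hx]; simp [abs_of_pos (D.pos i)]

theorem lo_mono : Monotone D.lo :=
  D.lo_adm.mono fun i x y hx hy _ => by rw [D.lo_gap hx, D.lo_gap hy]

variable {D}

theorem Adm.lo_le {f : ℝ → ℝ} (hf : D.Adm f) (x : ℝ) : D.lo x ≤ f x := by
  rcases E_or (D := D) x with hx | ⟨i, hi⟩
  · rw [hf.1 x hx, D.lo_adm.1 x hx]
  · rw [D.lo_gap hi]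
    linarith [(abs_le.1 (hf.2 i x hi)).1]

theorem Adm.phi {f : ℝ → ℝ} (hf : D.Adm f) : D.Adm (D.Phi f) := by
  refine ⟨fun x hx => D.Phi_E f hx, fun i x hx => ?_⟩
  by_cases hc : x = D.c i
  · rw [hc, Phi_c]; simpa using (D.pos i).le
  · rw [D.Phi_gap f hx hc]
    exact mob_in (D.pos i) (hf.out (mob_out (D.pos i) hc hx).le)

theorem Adm.phi_le {f f' : ℝ → ℝ} (hf : D.Adm f) (hf' : D.Adm f') (h : ∀ x, f x ≤ f' x) (x : ℝ) :
    D.Phi f x ≤ D.Phi f' x := by
  rcases E_or (D := D) x with hx | ⟨i, hi⟩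
  · rw [D.Phi_E f hx, D.Phi_E f' hx]
  · by_cases hc : x = D.c i
    · rw [hc, Phi_c, Phi_c]
    · rw [D.Phi_gap f hi hc, D.Phi_gap f' hi hc]
      have h1 := D.pos i
      refine mob_le (sq_nonneg _) (h _) ?_
      rcases lt_abs.1 (mob_out h1 hc hi) with a | a
      · exact Or.inl (by linarith [hf.right (i := i) (x := D.g i x) (by unfold g; linarith)])
      · exact Or.inr (by linarith [hf'.left (i := i) (x := D.g i x) (by unfold g; linarith)])

theorem g_side_lt {i : ι} {x : ℝ} (hi : |x - D.c i| < D.ρ i) (h : x < D.c i) :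
    D.c i + D.ρ i < D.g i x := by
  have h1 := D.pos i
  have h2 : D.c i < D.g i x := lt_mob_of_lt (pow_pos h1 2) h
  have h3 := mob_out h1 h.ne hi
  rw [abs_of_pos (by unfold g at h2; linarith)] at h3
  unfold g; linarith

theorem g_side_gt {i : ι} {x : ℝ} (hi : |x - D.c i| < D.ρ i) (h : D.c i < x) :
    D.g i x < D.c i - D.ρ i := by
  have h1 := D.pos i
  have h2 : D.g i x < D.c i := mob_lt_of_gt (pow_pos h1 2) h
  have h3 := mob_out h1 h.ne' hi
  rw [abs_of_neg (by unfold g at h2; linarith)] at h3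
  unfold g; linarith

theorem Adm.phi_mono {f : ℝ → ℝ} (hf : D.Adm f) (hm : Monotone f) : Monotone (D.Phi f) := by
  refine hf.phi.mono fun i x y hx hy hxy => ?_
  have h1 := D.pos i
  have h2 := pow_pos h1 2
  have lt_case : ∀ z, |z - D.c i| < D.ρ i → z ≤ D.c i → D.Phi f z ≤ D.H (D.c i) := by
    intro z hz hle
    rcases hle.eq_or_lt with rfl | hlt
    · rw [Phi_c]
    · rw [D.Phi_gap f hz hlt.ne]
      exact (mob_lt_of_gt h2 (by linarith [hf.right (g_side_lt hz hlt).le])).le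
  have gt_case : ∀ z, |z - D.c i| < D.ρ i → D.c i ≤ z → D.H (D.c i) ≤ D.Phi f z := by
    intro z hz hle
    rcases hle.eq_or_lt with rfl | hlt
    · rw [Phi_c]
    · rw [D.Phi_gap f hz hlt.ne']
      exact (lt_mob_of_lt h2 (by linarith [hf.left (g_side_gt hz hlt).le])).le
  by_cases a : y < D.c i
  · have b : x < D.c i := hxy.trans_lt a
    rw [D.Phi_gap f hx b.ne, D.Phi_gap f hy a.ne]
    exact mob_le h2.le (hm (mob_le h2.le hxy (Or.inr a)))
      (Or.inl (by linarith [hf.right (g_side_lt hx b).le]))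
  · by_cases b : D.c i < x
    · have a' : D.c i < y := b.trans_le hxy
      rw [D.Phi_gap f hx b.ne', D.Phi_gap f hy a'.ne']
      exact mob_le h2.le (hm (mob_le h2.le hxy (Or.inl b)))
        (Or.inr (by linarith [hf.left (g_side_gt hy a').le]))
    · exact (lt_case x hx (not_lt.1 b)).trans (gt_case y hy (not_lt.1 a))

variable (D)

/-- the properties of the boundary map -/
structure IsH (h : ℝ → ℝ) : Prop where
  mono : Monotone h
  adm : D.Adm h
  cen : ∀ i, h (D.c i) = D.H (D.c i)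
  equi : ∀ i x, x ≠ D.c i → h x ≠ D.H (D.c i) ∧ h (D.g i x) = D.g' i (h x)

theorem exists_h : ∃ h, D.IsH h := by
  let u : ℕ → ℝ → ℝ := fun n => D.Phi^[n] D.lo
  have us : ∀ n, u (n + 1) = D.Phi (u n) := fun n => Function.iterate_succ_apply' _ _ _
  have ua : ∀ n, D.Adm (u n) := by
    intro n
    induction n with
    | zero => exact D.lo_adm
    | succ n ih => rw [us]; exact ih.phi
  have um : ∀ n, Monotone (u n) := by
    intro n
    induction n with
    | zero => exact D.lo_mono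
    | succ n ih => rw [us]; exact (ua n).phi_mono ih
  have ui : ∀ n x, u n x ≤ u (n + 1) x := by
    intro n
    induction n with
    | zero => exact fun x => (ua 1).lo_le x
    | succ n ih => intro x; rw [us (n + 1), us n]; rw [us n] at ih
                   exact (ua n).phi_le ((ua n).phi) ih x
  have ub : ∀ x, BddAbove (Set.range fun n => u n x) := by
    intro x
    rcases E_or (D := D) x with hx | ⟨i, hi⟩
    · exact ⟨D.H x, by rintro _ ⟨n, rfl⟩; exact ((ua n).1 x hx).le⟩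
    · exact ⟨D.H (D.c i) + D.ρ i, by
        rintro _ ⟨n, rfl⟩; linarith [(abs_le.1 ((ua n).2 i x hi)).2]⟩
  let h : ℝ → ℝ := fun x => ⨆ n, u n x
  have ht : ∀ x, Tendsto (fun n => u n x) atTop (𝓝 (h x)) := fun x =>
    tendsto_atTop_ciSup (monotone_nat_of_le_succ fun n => ui n x) (ub x)
  have ht' : ∀ x, Tendsto (fun n => D.Phi (u n) x) atTop (𝓝 (h x)) := fun x => by
    have := (ht x).comp (tendsto_add_atTop_nat 1)
    simpa only [Function.comp_def, us] using this
  have ha : D.Adm h := by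
    refine ⟨fun x hx => ?_, fun i x hx => ?_⟩
    · refine tendsto_nhds_unique (ht x) ?_
      simp only [fun n => (ua n).1 x hx]
      exact tendsto_const_nhds
    · exact le_of_tendsto' (((ht x).sub_const _).abs) fun n => (ua n).2 i x hx
  have hgap : ∀ i x, |x - D.c i| < D.ρ i → x ≠ D.c i → h x = D.g' i (h (D.g i x)) := by
    intro i x hx hc
    refine tendsto_nhds_unique (ht' x) ?_
    simp only [fun n => D.Phi_gap (u n) hx hc]
    have hne : h (D.g i x) - D.H (D.c i) ≠ 0 := by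
      have := ha.out (mob_out (D.pos i) hc hx).le
      intro e
      unfold g at e
      rw [e, abs_zero] at this
      linarith [D.pos i]
    exact tendsto_const_nhds.sub (tendsto_const_nhds.div ((ht _).sub_const _) hne)
  refine ⟨h, fun x y hxy => le_of_tendsto_of_tendsto' (ht x) (ht y) fun n => um n hxy, ha,
    fun i => ?_, fun i x hc => ?_⟩
  · refine tendsto_nhds_unique (ht' _) ?_
    simp only [Phi_c]
    exact tendsto_const_nhds
  · have hρ := D.pos i
    have hρ2 := (pow_pos hρ 2).ne'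
    have ne_of_out : ∀ z, D.ρ i ≤ |z - D.c i| → h z ≠ D.H (D.c i) := by
      intro z hz e
      have := ha.out hz
      rw [e, sub_self, abs_zero] at this
      linarith
    rcases lt_trichotomy |x - D.c i| (D.ρ i) with a | a | a
    · have b := ne_of_out _ (mob_out hρ hc a).le
      rw [hgap i x a hc]
      exact ⟨mob_ne hρ2 b, (mob_mob hρ2 b).symm⟩
    · refine ⟨ne_of_out x a.ge, ?_⟩
      rcases (abs_eq hρ.le).1 a with b | b
      · obtain rfl : x = D.c i + D.ρ i := by linarith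
        rw [g_right, ha.1 _ (D.E_left i), ha.1 _ (D.E_right i), H_left, H_right]
        exact (mob_right hρ).symm
      · obtain rfl : x = D.c i - D.ρ i := by linarith
        rw [g_left, ha.1 _ (D.E_left i), ha.1 _ (D.E_right i), H_left, H_right]
        exact (mob_left hρ).symm
    · refine ⟨ne_of_out x a.le, ?_⟩
      rw [hgap i (D.g i x) (mob_in' hρ a) (D.g_ne hc), D.g_g hc]

end Setup

end Pool.Agent.H652Z.Strip
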