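import Mathlib

/-!
Groups generated by half-turns about the tops of disjoint half-circles: ping-pong, normal forms and
monotonicity of traces in the distances between the circles.
-/

namespace Pool.Agent.H652Z.Strip

open Matrix

/-- centres and radii -/
structure Cfg (ι : Type) where
  /-- centres -/
  c : ι → ℝ
  /-- radii -/
  ρ : ι → ℝ
  pos : ∀ i, 0 < ρ i

variable {ι : Type}

/-- the underlying matrix -/
def mat (g : SpecialLinearGroup (Fin 2) ℝ) : Matrix (Fin 2) (Fin 2) ℝ := g.1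

theorem mat_mul (g g' : SpecialLinearGroup (Fin 2) ℝ) : mat (g * g') = mat g * mat g' := rfl

@[simp] theorem mat_one : mat 1 = 1 := rfl

@[simp] theorem mat_neg (g : SpecialLinearGroup (Fin 2) ℝ) : mat (-g) = -mat g := rfl

theorem mat_inj {g g' : SpecialLinearGroup (Fin 2) ℝ} (h : mat g = mat g') : g = g' :=
  Subtype.ext h

/-- the closed discs have disjoint interiors -/
def Cfg.Sep (P : Cfg ι) : Prop := ∀ i j, i ≠ j → P.ρ i + P.ρ j < |P.c i - P.c j|

/-- the half-turn `z ↦ c - ρ² / (z - c)` -/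
noncomputable def S (P : Cfg ι) (i : ι) : SpecialLinearGroup (Fin 2) ℝ :=
  ⟨!![P.c i / P.ρ i, -(P.c i ^ 2 + P.ρ i ^ 2) / P.ρ i; 1 / P.ρ i, -P.c i / P.ρ i], by
    have := (P.pos i).ne'
    rw [Matrix.det_fin_two_of]
    field_simp
    ring⟩

theorem S_coe (P : Cfg ι) (i : ι) : mat (S P i) =
    !![P.c i / P.ρ i, -(P.c i ^ 2 + P.ρ i ^ 2) / P.ρ i; 1 / P.ρ i, -P.c i / P.ρ i] := rfl

theorem S_mul_self (P : Cfg ι) (i : ι) : S P i * S P i = -1 := by
  have := (P.pos i).ne'
  apply mat_inj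
  rw [mat_mul, S_coe, mat_neg, mat_one]
  ext a b
  fin_cases a <;> fin_cases b <;> simp [Matrix.mul_apply, Fin.sum_univ_two] <;> field_simp <;> ring

/-- the product along a word -/
noncomputable def M (P : Cfg ι) (w : List ι) : SpecialLinearGroup (Fin 2) ℝ := (w.map (S P)).prod

@[simp] theorem M_nil (P : Cfg ι) : M P [] = 1 := rfl

@[simp] theorem M_cons (P : Cfg ι) (i : ι) (w : List ι) : M P (i :: w) = S P i * M P w := by
  simp [M]

@[simp] theorem M_append (P : Cfg ι) (w w' : List ι) : M P (w ++ w') = M P w * M P w' := by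
  simp [M]

theorem S_inv (P : Cfg ι) (i : ι) : (S P i)⁻¹ = -S P i := by
  rw [inv_eq_iff_mul_eq_one, mul_neg, S_mul_self, neg_neg]

theorem exists_inv (w : List ι) : ∃ w' : List ι, w'.length % 2 = w.length % 2 ∧
    (∀ a ∈ w', a ∈ w) ∧ ∀ P : Cfg ι, M P w' = (M P w)⁻¹ := by
  induction w with
  | nil => exact ⟨[], rfl, by simp, by simp⟩
  | cons i w ih =>
    obtain ⟨w', h1, h2, h3⟩ := ih
    refine ⟨w' ++ [i, i, i], ?_, ?_, fun P => ?_⟩
    · simp only [List.length_append, List.length_cons, List.length_nil]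
      omega
    · intro a ha
      simp only [List.mem_append, List.mem_cons, List.not_mem_nil, or_false, or_self] at ha ⊢
      rcases ha with ha | ha
      · exact Or.inr (h2 a ha)
      · exact Or.inl ha
    · rw [M_append, h3, M_cons, M_cons, M_cons, M_cons, M_nil, mul_one, S_mul_self,
        _root_.mul_inv_rev, S_inv]
      simp

/-- the subgroup of even words with letters in `F` -/
noncomputable def Gam (P : Cfg ι) (F : Set ι) : Subgroup (SpecialLinearGroup (Fin 2) ℝ) where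
  carrier := {g | ∃ w : List ι, w.length % 2 = 0 ∧ (∀ a ∈ w, a ∈ F) ∧ g = M P w}
  mul_mem' := by
    rintro _ _ ⟨w, h1, h2, rfl⟩ ⟨w', h1', h2', rfl⟩
    refine ⟨w ++ w', by simp only [List.length_append]; omega, ?_, by simp⟩
    intro a ha
    rcases List.mem_append.1 ha with h | h
    · exact h2 a h
    · exact h2' a h
  one_mem' := ⟨[], rfl, by simp, rfl⟩
  inv_mem' := by
    rintro _ ⟨w, h1, h2, rfl⟩
    obtain ⟨w', a1, a2, a3⟩ := exists_inv w
    exact ⟨w', by omega, fun a ha => h2 a (a2 a ha), (a3 P).symm⟩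

/-- the word `i :: t` is reduced -/
def Red : ι → List ι → Prop
  | _, [] => True
  | i, j :: t => i ≠ j ∧ Red j t

/-- last letter of `i :: t` -/
def lst : ι → List ι → ι
  | i, [] => i
  | _, j :: t => lst j t

theorem exists_red (w : List ι) : ∃ (w' : List ι) (s : SpecialLinearGroup (Fin 2) ℝ),
    (s = 1 ∨ s = -1) ∧ w'.length % 2 = w.length % 2 ∧ w'.length ≤ w.length ∧
    (∀ a ∈ w', a ∈ w) ∧ (w' = [] ∨ ∃ i t, w' = i :: t ∧ Red i t) ∧
    ∀ P : Cfg ι, M P w = s * M P w' := by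
  induction w with
  | nil => exact ⟨[], 1, Or.inl rfl, rfl, le_rfl, by simp, Or.inl rfl, by simp⟩
  | cons i w ih =>
    obtain ⟨w', s, hs, h1, h2, h3, h4, h5⟩ := ih
    have comm : ∀ P : Cfg ι, S P i * s = s * S P i := by
      intro P; rcases hs with rfl | rfl <;> simp
    rcases h4 with rfl | ⟨j, t, rfl, hr⟩
    · refine ⟨[i], s, hs, by simp only [List.length_cons, List.length_nil] at h1 ⊢; omega,
        by simp, by simp, Or.inr ⟨i, [], rfl, trivial⟩, fun P => ?_⟩
      rw [M_cons, h5, ← mul_assoc, comm]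
      simp
    · by_cases hij : i = j
      · subst hij
        refine ⟨t, -s, ?_, by simp only [List.length_cons] at h1 ⊢; omega,
          by simp only [List.length_cons] at h2 ⊢; omega,
          fun a ha => List.mem_cons_of_mem _ (h3 a (List.mem_cons_of_mem _ ha)), ?_, fun P => ?_⟩
        · rcases hs with rfl | rfl <;> simp
        · cases t with
          | nil => exact Or.inl rfl
          | cons k t => exact Or.inr ⟨k, t, rfl, hr.2⟩
        · rw [M_cons, h5, ← mul_assoc, comm, M_cons, mul_assoc, ← mul_assoc (S P i), S_mul_self]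
          simp
      · refine ⟨i :: j :: t, s, hs, by simp only [List.length_cons] at h1 ⊢; omega,
          by simp only [List.length_cons] at h2 ⊢; omega, ?_,
          Or.inr ⟨i, j :: t, rfl, hij, hr⟩, fun P => ?_⟩
        · intro a ha
          rcases List.mem_cons.1 ha with rfl | ha
          · exact List.mem_cons_self
          · exact List.mem_cons_of_mem _ (h3 a ha)
        · rw [M_cons, h5, ← mul_assoc, comm, mul_assoc, ← M_cons]

theorem exists_lst (i : ι) (t : List ι) (ht : t ≠ []) : ∃ m, t = m ++ [lst i t] := by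
  induction t generalizing i with
  | nil => exact absurd rfl ht
  | cons j t ih =>
    cases t with
    | nil => exact ⟨[], rfl⟩
    | cons k t =>
      obtain ⟨m, hm⟩ := ih j (by simp)
      exact ⟨j :: m, by rw [List.cons_append, ← show lst j (k :: t) = lst i (j :: k :: t) from rfl,
        ← hm]⟩

theorem exists_cyc (n : ℕ) : ∀ w : List ι, w.length ≤ n → w.length % 2 = 0 →
    ∃ (u w' : List ι) (s : SpecialLinearGroup (Fin 2) ℝ), (s = 1 ∨ s = -1) ∧
      (w' = [] ∨ ∃ i t, w' = i :: t ∧ Red i t ∧ lst i t ≠ i) ∧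
      ∀ P : Cfg ι, M P w = s * (M P u * M P w' * (M P u)⁻¹) := by
  induction n with
  | zero =>
    intro w hw _
    obtain rfl : w = [] := List.length_eq_zero_iff.1 (by omega)
    exact ⟨[], [], 1, Or.inl rfl, Or.inl rfl, by simp⟩
  | succ n ih =>
    intro w hw he
    obtain ⟨w', s, hs, h1, h2, -, h4, h5⟩ := exists_red w
    rcases h4 with rfl | ⟨i, t, rfl, hr⟩
    · exact ⟨[], [], s, hs, Or.inl rfl, fun P => by simp [h5]⟩
    · by_cases hl : lst i t = i
      · have ht : t ≠ [] := by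
          rintro rfl
          simp only [List.length_cons, List.length_nil] at h1
          omega
        obtain ⟨m, hm⟩ := exists_lst i t ht
        rw [hl] at hm
        have hlen : t.length = m.length + 1 := by rw [hm]; simp
        simp only [List.length_cons] at h1 h2
        obtain ⟨u, w', s', hs', h6, h7⟩ := ih m (by omega) (by omega)
        refine ⟨i :: u, w', -(s * s'), ?_, h6, fun P => ?_⟩
        · rcases hs with rfl | rfl <;> rcases hs' with rfl | rfl <;> simp
        · have comm : S P i * s' = s' * S P i := by rcases hs' with rfl | rfl <;> simp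
          rw [h5, hm, M_cons, M_append, h7, M_cons, M_cons, M_nil, _root_.mul_inv_rev, S_inv]
          simp only [mul_one, mul_neg, neg_mul, neg_neg, ← mul_assoc]
          rw [mul_assoc s (S P i) s', comm]
          simp only [← mul_assoc]
      · exact ⟨[], i :: t, s, hs, Or.inr ⟨i, t, rfl, hr, hl⟩, fun P => by simp [h5]⟩

/-- action on column vectors -/
def act (g : SpecialLinearGroup (Fin 2) ℝ) (v : ℝ × ℝ) : ℝ × ℝ :=
  (mat g 0 0 * v.1 + mat g 0 1 * v.2,
    mat g 1 0 * v.1 + mat g 1 1 * v.2)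

theorem act_mul (g g' : SpecialLinearGroup (Fin 2) ℝ) (v : ℝ × ℝ) :
    act (g * g') v = act g (act g' v) := by
  simp only [act, mat_mul, Matrix.mul_apply, Fin.sum_univ_two]
  ext <;> ring

theorem act_one (v : ℝ × ℝ) : act 1 v = v := by
  simp [act]

theorem act_neg (g : SpecialLinearGroup (Fin 2) ℝ) (v : ℝ × ℝ) : act (-g) v = -act g v := by
  simp only [act, mat_neg, Matrix.neg_apply]
  ext <;> simp <;> ring

theorem act_S_snd (P : Cfg ι) (i : ι) (v : ℝ × ℝ) :
    (act (S P i) v).2 = (v.1 - P.c i * v.2) / P.ρ i := by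
  have := (P.pos i).ne'
  simp only [act, S_coe]
  simp
  field_simp
  ring

theorem act_S_fst (P : Cfg ι) (i : ι) (v : ℝ × ℝ) :
    (act (S P i) v).1 = P.c i * (act (S P i) v).2 - P.ρ i * v.2 := by
  have := (P.pos i).ne'
  simp only [act, S_coe]
  simp
  field_simp
  ring

/-- vector pointing outside the open gap -/
def Out (P : Cfg ι) (i : ι) (v : ℝ × ℝ) : Prop :=
  P.ρ i * |v.2| ≤ |v.1 - P.c i * v.2| ∧ (v.1 ≠ 0 ∨ v.2 ≠ 0)

/-- vector pointing into the closed gap -/
def Ins (P : Cfg ι) (i : ι) (v : ℝ × ℝ) : Prop :=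
  |v.1 - P.c i * v.2| ≤ P.ρ i * |v.2| ∧ v.2 ≠ 0

theorem Out.step {P : Cfg ι} {i : ι} {v : ℝ × ℝ} (h : Out P i v) :
    Ins P i (act (S P i) v) ∧ |v.2| ≤ |(act (S P i) v).2| := by
  have hρ := P.pos i
  have h2 : |v.2| ≤ |(act (S P i) v).2| := by
    rw [act_S_snd, abs_div, abs_of_pos hρ, le_div_iff₀ hρ, mul_comm]
    exact h.1
  refine ⟨⟨?_, ?_⟩, h2⟩
  · rw [act_S_fst, sub_sub_cancel_left, abs_neg, abs_mul, abs_of_pos hρ]
    exact mul_le_mul_of_nonneg_left h2 hρ.le
  · by_cases hv : v.2 = 0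
    · rw [act_S_snd, hv]
      rcases h.2 with h1 | h1
      · simpa [hρ.ne'] using h1
      · exact absurd hv h1
    · intro h0
      rw [h0, abs_zero] at h2
      exact hv (abs_nonpos_iff.1 h2)

theorem Ins.lt {P : Cfg ι} (hP : P.Sep) {i j : ι} (hij : i ≠ j) {v : ℝ × ℝ} (h : Ins P j v) :
    P.ρ i * |v.2| < |v.1 - P.c i * v.2| := by
  have h1 := hP i j hij
  have h2 : |(P.c i - P.c j) * v.2| ≤ |v.1 - P.c j * v.2| + |v.1 - P.c i * v.2| := by
    have : (P.c i - P.c j) * v.2 = (v.1 - P.c j * v.2) - (v.1 - P.c i * v.2) := by ring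
    rw [this]
    exact abs_sub _ _
  rw [abs_mul] at h2
  have h3 : 0 < |v.2| := abs_pos.2 h.2
  have h4 := h.1
  nlinarith

theorem Ins.out {P : Cfg ι} (hP : P.Sep) {i j : ι} (hij : i ≠ j) {v : ℝ × ℝ} (h : Ins P j v) :
    Out P i v := ⟨(h.lt hP hij).le, Or.inr h.2⟩

theorem pingpong {P : Cfg ι} (hP : P.Sep) {v : ℝ × ℝ} (t : List ι) : ∀ i, Red i t →
    Out P (lst i t) v →
    Ins P i (act (M P (i :: t)) v) ∧ |(act (S P (lst i t)) v).2| ≤ |(act (M P (i :: t)) v).2| := by
  induction t with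
  | nil =>
    intro i _ hv
    simp only [M_cons, M_nil, mul_one]
    exact ⟨hv.step.1, le_rfl⟩
  | cons j t ih =>
    intro i hr hv
    obtain ⟨h1, h2⟩ := ih j hr.2 hv
    rw [M_cons, act_mul]
    have h3 := (h1.out hP hr.1).step
    exact ⟨h3.1, h2.trans h3.2⟩

theorem out_inf (P : Cfg ι) (i : ι) : Out P i (1, 0) := by simp [Out]

theorem discrete {P : Cfg ι} (hP : P.Sep) (h1 : ∀ i, P.ρ i ≤ 1) (w : List ι)
    (h : ∀ i j : Fin 2, |mat (M P w) i j -
      (1 : Matrix (Fin 2) (Fin 2) ℝ) i j| < 1) : M P w = 1 := by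
  obtain ⟨w', s, hs, -, -, -, h4, h5⟩ := exists_red w
  rcases h4 with rfl | ⟨i, t, rfl, hr⟩
  · rcases hs with rfl | rfl
    · simpa using h5 P
    · have := h 0 0
      rw [h5] at this
      norm_num at this
  · exfalso
    have h6 := (pingpong hP t i hr (out_inf P _)).2
    have h7 : |(act (M P w) (1, 0)).2| = |(act (M P (i :: t)) (1, 0)).2| := by
      rw [h5]
      rcases hs with rfl | rfl
      · rw [one_mul]
      · rw [neg_mul, one_mul, act_neg]; simp
    have h8 := h 1 0
    rw [← h7, act_S_snd] at h6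
    have h9 : (act (M P w) (1, 0)).2 = mat (M P w) 1 0 := by simp [act]
    rw [h9] at h6
    have hρ := P.pos (lst i t)
    have h10 : (1 : ℝ) ≤ 1 / P.ρ (lst i t) := by
      rw [le_div_iff₀ hρ]; linarith [h1 (lst i t)]
    simp only [mul_zero, sub_zero, abs_div, abs_one, abs_of_pos hρ] at h6
    simp at h8
    linarith

theorem torsion_free {P : Cfg ι} (hP : P.Sep) (w : List ι) (hw : w.length % 2 = 0) (n : ℕ)
    (hn : 0 < n) (h : M P w ^ n = 1 ∨ M P w ^ n = -1) : M P w = 1 ∨ M P w = -1 := by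
  obtain ⟨u, w', s, hs, h1, h2⟩ := exists_cyc w.length w le_rfl hw
  rcases h1 with rfl | ⟨i, t, rfl, hr, hl⟩
  · rw [h2]
    simpa using hs
  · exfalso
    have key : ∀ k : ℕ, Ins P i (act (M P (i :: t) ^ (k + 1)) (1, 0)) := by
      intro k
      induction k with
      | zero => simpa using (pingpong hP t i hr (out_inf P _)).1
      | succ k ih =>
        rw [pow_succ', act_mul]
        exact (pingpong hP t i hr (ih.out hP hl)).1
    obtain ⟨k, rfl⟩ : ∃ k, n = k + 1 := ⟨n - 1, by omega⟩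
    have h3 : M P (i :: t) ^ (k + 1) = 1 ∨ M P (i :: t) ^ (k + 1) = -1 := by
      have e : M P w ^ (k + 1) =
          s ^ (k + 1) * (M P u * M P (i :: t) ^ (k + 1) * (M P u)⁻¹) := by
        rw [h2, Commute.mul_pow, conj_pow]
        rcases hs with rfl | rfl
        · exact Commute.one_left _
        · exact Commute.neg_one_left _
      have hs2 : s ^ (k + 1) = 1 ∨ s ^ (k + 1) = -1 := by
        rcases hs with rfl | rfl
        · exact Or.inl (one_pow _)
        · exact neg_one_pow_eq_or _ _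
      have e2 : M P (i :: t) ^ (k + 1) =
          (M P u)⁻¹ * ((s ^ (k + 1))⁻¹ * M P w ^ (k + 1)) * M P u := by
        rw [e]; group
      rw [e2]
      rcases hs2 with a | a <;> rcases h with b | b <;> rw [a, b] <;> simp
    have h4 := (key k).2
    rcases h3 with a | a
    · rw [a, act_one] at h4; exact h4 rfl
    · rw [a, act_neg, act_one] at h4; simp at h4

theorem not_fg [Infinite ι] {P : Cfg ι} (hP : P.Sep) : ¬ (Gam P Set.univ).FG := by
  classical
  rintro ⟨T, hT⟩
  have hmem : ∀ g ∈ T, ∃ w : List ι, w.length % 2 = 0 ∧ g = M P w := by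
    intro g hg
    have : g ∈ Gam P Set.univ := hT ▸ Subgroup.subset_closure hg
    obtain ⟨w, h1, -, h2⟩ := this
    exact ⟨w, h1, h2⟩
  choose! f hf using hmem
  let F : Finset ι := T.biUnion fun g => (f g).toFinset
  have hle : Gam P Set.univ ≤ Gam P F := by
    rw [← hT, Subgroup.closure_le]
    intro g hg
    refine ⟨f g, (hf g hg).1, fun a ha => ?_, (hf g hg).2⟩
    simp only [F, Finset.coe_biUnion, Set.mem_iUnion]
    exact ⟨g, hg, by simpa using ha⟩
  obtain ⟨j, hj⟩ := Infinite.exists_notMem_finset F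
  obtain ⟨i, hi⟩ := exists_ne j
  obtain ⟨w, -, h2, h3⟩ := hle (show M P [j, i] ∈ Gam P Set.univ from ⟨[j, i], by simp, by simp, rfl⟩)
  have h4 : Ins P j (act (M P [j, i]) (1, 0)) :=
    (pingpong hP [i] j ⟨hi.symm, trivial⟩ (out_inf P _)).1
  obtain ⟨w', s, hs, -, -, h5, h6, h7⟩ := exists_red w
  rw [h3, h7] at h4
  rcases h6 with rfl | ⟨k, t, rfl, hr⟩
  · have := h4.2
    rcases hs with rfl | rfl
    · simp [act_one] at this
    · simp [act_neg, act_one] at this
  · have h8 := (pingpong hP t k hr (out_inf P _)).1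
    have hk : j ≠ k := by
      rintro rfl
      exact hj (h2 j (h5 j List.mem_cons_self))
    have h9 := h8.lt hP hk
    have h10 := h4.1
    rcases hs with rfl | rfl
    · rw [one_mul] at h10; linarith
    · rw [neg_mul, one_mul, act_neg] at h10
      simp only [Prod.fst_neg, Prod.snd_neg, abs_neg, mul_neg, sub_neg_eq_add] at h10
      rw [← abs_neg] at h10
      simp only [neg_add_rev, neg_neg] at h10
      rw [add_comm, ← sub_eq_add_neg] at h10
      linarith

/-- the normalised factors -/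
noncomputable def NN (s a : ℝ) : Matrix (Fin 2) (Fin 2) ℝ := !![0, -1 / s; s, a]

/-- products of admissible factors -/
def MM : Submonoid (Matrix (Fin 2) (Fin 2) ℝ) :=
  Submonoid.closure {A | ∃ s a : ℝ, 0 < s ∧ s + 1 / s ≤ |a| ∧ A = NN s a}

theorem MM_col {R : Matrix (Fin 2) (Fin 2) ℝ} (h : R ∈ MM) : |R 0 1| ≤ |R 1 1| := by
  induction h using Submonoid.closure_induction_left with
  | one => simp
  | mul_left x hx y _ ih =>
    obtain ⟨s, a, hs, ha, rfl⟩ := hx
    simp only [NN, Matrix.mul_apply, Fin.sum_univ_two, of_apply, cons_val', cons_val_zero,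
      cons_val_fin_one, cons_val_one, zero_mul, zero_add]
    have h1 : |a * y 1 1| ≤ |s * y 0 1 + a * y 1 1| + |s * y 0 1| := by
      have : a * y 1 1 = (s * y 0 1 + a * y 1 1) - s * y 0 1 := by ring
      conv_lhs => rw [this]
      exact abs_sub _ _
    rw [abs_mul, abs_mul, abs_of_pos hs] at h1
    rw [abs_mul, abs_div, abs_neg, abs_one, abs_of_pos hs]
    have h2 := abs_nonneg (y 1 1)
    nlinarith

theorem MM_row {R : Matrix (Fin 2) (Fin 2) ℝ} (h : R ∈ MM) : |R 1 0| ≤ |R 1 1| := by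
  induction h using Submonoid.closure_induction_right with
  | one => simp
  | mul_right y _ x hx ih =>
    obtain ⟨s, a, hs, ha, rfl⟩ := hx
    simp only [NN, Matrix.mul_apply, Fin.sum_univ_two, of_apply, cons_val', cons_val_zero,
      cons_val_fin_one, cons_val_one, mul_zero, zero_add]
    have h1 : |y 1 1 * a| ≤ |y 1 0 * (-1 / s) + y 1 1 * a| + |y 1 0 * (-1 / s)| := by
      have : y 1 1 * a = (y 1 0 * (-1 / s) + y 1 1 * a) - y 1 0 * (-1 / s) := by ring
      conv_lhs => rw [this]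
      exact abs_sub _ _
    rw [abs_mul, abs_mul, abs_div, abs_neg, abs_one, abs_of_pos hs] at h1
    rw [abs_mul, abs_of_pos hs]
    have h2 := abs_nonneg (y 1 1)
    have h3 : 0 < 1 / s := by positivity
    nlinarith

theorem abs_step {x y a a' : ℝ} (h1 : |x| ≤ |a'| * |y|) (h2 : |a'| ≤ |a|) (h3 : 0 ≤ a * a') :
    |x + a' * y| ≤ |x + a * y| := by
  rw [← sq_le_sq]
  have e : (x + a * y) ^ 2 - (x + a' * y) ^ 2 =
      (a ^ 2 - a' ^ 2) * y ^ 2 + 2 * (x * y * (a - a')) := by ring
  have h4 : |a - a'| = |a| - |a'| := by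
    rcases le_total 0 a with ha | ha <;> rcases le_total 0 a' with ha' | ha'
    · rw [abs_of_nonneg ha, abs_of_nonneg ha'] at *
      exact abs_of_nonneg (by linarith)
    · have : a * a' = 0 := le_antisymm (mul_nonpos_of_nonneg_of_nonpos ha ha') h3
      rcases mul_eq_zero.1 this with h | h
      · rw [h] at h2 ⊢
        have : a' = 0 := by simpa using h2
        simp [this]
      · simp [h]
    · have : a * a' = 0 := le_antisymm (mul_nonpos_of_nonpos_of_nonneg ha ha') h3
      rcases mul_eq_zero.1 this with h | h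
      · rw [h] at h2 ⊢
        have : a' = 0 := by simpa using h2
        simp [this]
      · simp [h]
    · rw [abs_of_nonpos ha, abs_of_nonpos ha'] at *
      rw [abs_of_nonpos (by linarith)]
      ring
  have h5 : -(|x| * |y| * (|a| - |a'|)) ≤ x * y * (a - a') := by
    rw [← h4, ← abs_mul, ← abs_mul]
    exact neg_abs_le _
  have h6 : (a ^ 2 - a' ^ 2) * y ^ 2 = (|a| - |a'|) * (|a| + |a'|) * |y| ^ 2 := by
    rw [← sq_abs a, ← sq_abs a', ← sq_abs y]; ring
  have h7 : 0 ≤ |a| - |a'| := by linarith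
  have h8 := abs_nonneg y
  have h9 : |x| * |y| * (|a| - |a'|) ≤ |a'| * |y| * |y| * (|a| - |a'|) :=
    mul_le_mul_of_nonneg_right (mul_le_mul_of_nonneg_right h1 h8) h7
  have h10 : 0 ≤ (|a| - |a'|) * (|a| - |a'|) * |y| ^ 2 := by positivity
  nlinarith

theorem trace_step {R : Matrix (Fin 2) (Fin 2) ℝ} (hR : R ∈ MM) {s a a' : ℝ} (hs : 0 < s)
    (h1 : s + 1 / s ≤ |a'|) (h2 : |a'| ≤ |a|) (h3 : 0 ≤ a * a') :
    |trace (NN s a' * R)| ≤ |trace (NN s a * R)| := by
  have e : ∀ b, trace (NN s b * R) = (-1 / s * R 1 0 + s * R 0 1) + b * R 1 1 := by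
    intro b
    rw [trace_fin_two, Matrix.mul_apply, Matrix.mul_apply, Fin.sum_univ_two, Fin.sum_univ_two]
    simp [NN]
    ring
  rw [e, e]
  refine abs_step ?_ h2 h3
  have h4 := MM_col hR
  have h5 := MM_row hR
  have h6 := abs_add_le (-1 / s * R 1 0) (s * R 0 1)
  rw [abs_mul, abs_mul, abs_div, abs_neg, abs_one, abs_of_pos hs] at h6
  have h7 : 0 < 1 / s := by positivity
  have h8 := abs_nonneg (R 1 1)
  nlinarith

theorem trace_mono (l : List (ℝ × ℝ × ℝ))
    (hl : ∀ x ∈ l, 0 < x.1 ∧ x.1 + 1 / x.1 ≤ |x.2.2| ∧ |x.2.2| ≤ |x.2.1| ∧ 0 ≤ x.2.1 * x.2.2) :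
    ∀ A ∈ MM, |trace (A * (l.map fun x => NN x.1 x.2.2).prod)| ≤
      |trace (A * (l.map fun x => NN x.1 x.2.1).prod)| := by
  induction l with
  | nil => intro A _; simp
  | cons x l ih =>
    intro A hA
    obtain ⟨h1, h2, h3, h4⟩ := hl x List.mem_cons_self
    have hl' := fun y hy => hl y (List.mem_cons_of_mem _ hy)
    have hN : NN x.1 x.2.2 ∈ MM := Submonoid.subset_closure ⟨_, _, h1, h2, rfl⟩
    have hB : (l.map fun x => NN x.1 x.2.1).prod ∈ MM := by
      refine list_prod_mem fun B hB => ?_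
      obtain ⟨y, hy, rfl⟩ := List.mem_map.1 hB
      obtain ⟨a1, a2, a3, -⟩ := hl' y hy
      exact Submonoid.subset_closure ⟨_, _, a1, a2.trans a3, rfl⟩
    simp only [List.map_cons, List.prod_cons]
    rw [← mul_assoc]
    refine (ih hl' _ (MM.mul_mem hA hN)).trans ?_
    rw [mul_assoc, trace_mul_comm, trace_mul_comm A, mul_assoc, mul_assoc]
    exact trace_step (MM.mul_mem hB hA) h1 h2 h3 h4

/-- the frame at a gap -/
noncomputable def EE (P : Cfg ι) (i : ι) : Matrix (Fin 2) (Fin 2) ℝ :=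
  !![√(P.ρ i), P.c i / √(P.ρ i); 0, 1 / √(P.ρ i)]

theorem S_mul_EE (P : Cfg ι) (i j : ι) : mat (S P i) * EE P j =
    EE P i * NN (√(P.ρ j) / √(P.ρ i)) ((P.c j - P.c i) / (√(P.ρ i) * √(P.ρ j))) := by
  have h1 : 0 < √(P.ρ i) := Real.sqrt_pos.2 (P.pos i)
  have h2 : 0 < √(P.ρ j) := Real.sqrt_pos.2 (P.pos j)
  have e1 : P.ρ i = √(P.ρ i) ^ 2 := (Real.sq_sqrt (P.pos i).le).symm
  rw [S_coe, EE, EE, NN]
  generalize √(P.ρ i) = r at *
  generalize √(P.ρ j) = r' at *
  rw [e1]
  ext a b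
  fin_cases a <;> fin_cases b <;> simp [Matrix.mul_apply, Fin.sum_univ_two] <;> field_simp <;> ring

/-- consecutive pairs of the word `i :: t` followed by `k` -/
def prs : ι → List ι → ι → List (ι × ι)
  | i, [], k => [(i, k)]
  | i, j :: t, k => (i, j) :: prs j t k

theorem prs_ne {k : ι} (t : List ι) : ∀ i, Red i t → lst i t ≠ k →
    ∀ x ∈ prs i t k, x.1 ≠ x.2 := by
  induction t with
  | nil => intro i _ h x hx; simp only [prs, List.mem_singleton] at hx; subst hx; exact h
  | cons j t ih =>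
    intro i hr h x hx
    rcases List.mem_cons.1 hx with rfl | hx
    · exact hr.1
    · exact ih j hr.2 h x hx

theorem M_mul_EE (P : Cfg ι) (k : ι) (t : List ι) : ∀ i,
    mat (M P (i :: t)) * EE P k = EE P i * ((prs i t k).map fun x =>
      NN (√(P.ρ x.2) / √(P.ρ x.1)) ((P.c x.2 - P.c x.1) / (√(P.ρ x.1) * √(P.ρ x.2)))).prod := by
  induction t with
  | nil => intro i; simp [prs, S_mul_EE]
  | cons j t ih =>
    intro i
    rw [M_cons, mat_mul, mul_assoc, ih j, ← mul_assoc, S_mul_EE]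
    simp [prs, mul_assoc]

theorem trace_M (P : Cfg ι) (i : ι) (t : List ι) :
    trace (mat (M P (i :: t))) = trace ((prs i t i).map fun x =>
      NN (√(P.ρ x.2) / √(P.ρ x.1)) ((P.c x.2 - P.c x.1) / (√(P.ρ x.1) * √(P.ρ x.2)))).prod := by
  have h1 : 0 < √(P.ρ i) := Real.sqrt_pos.2 (P.pos i)
  have hdet : IsUnit (EE P i).det := by
    rw [EE, det_fin_two_of, isUnit_iff_ne_zero]
    field_simp
    simp [h1.ne']
  have := M_mul_EE P i t i
  calc trace (mat (M P (i :: t)))
      = trace (mat (M P (i :: t)) * EE P i * (EE P i)⁻¹) := by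
        rw [mul_assoc, mul_nonsing_inv _ hdet, mul_one]
    _ = _ := by
        rw [this, trace_mul_comm, ← mul_assoc, nonsing_inv_mul _ hdet, one_mul]

theorem trace_le {P P' : Cfg ι} (hP' : P'.Sep) (hρ : P'.ρ = P.ρ)
    (h1 : ∀ i j, |P'.c i - P'.c j| ≤ |P.c i - P.c j|)
    (h2 : ∀ i j, 0 ≤ (P.c i - P.c j) * (P'.c i - P'.c j)) (w : List ι) (hw : w.length % 2 = 0) :
    |trace (mat (M P' w))| ≤ |trace (mat (M P w))| := by
  obtain ⟨u, w', s, hs, h3, h4⟩ := exists_cyc w.length w le_rfl hw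
  have key : ∀ Q : Cfg ι, |trace (mat (M Q w))| =
      |trace (mat (M Q w'))| := by
    intro Q
    have e : trace (mat (M Q u * M Q w' * (M Q u)⁻¹)) = trace (mat (M Q w')) := by
      rw [mat_mul, trace_mul_comm, ← mat_mul]
      congr 2
      group
    rw [h4]
    rcases hs with rfl | rfl
    · rw [one_mul, e]
    · rw [neg_mul, one_mul, mat_neg, trace_neg, abs_neg, e]
  rw [key, key]
  rcases h3 with rfl | ⟨i, t, rfl, hr, hl⟩
  · simp
  · rw [trace_M, trace_M]
    have := trace_mono ((prs i t i).map fun x => (√(P.ρ x.2) / √(P.ρ x.1),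
      (P.c x.2 - P.c x.1) / (√(P.ρ x.1) * √(P.ρ x.2)),
      (P'.c x.2 - P'.c x.1) / (√(P.ρ x.1) * √(P.ρ x.2)))) ?_ 1 MM.one_mem
    · simp only [one_mul, List.map_map] at this
      rw [hρ]
      exact this
    · intro y hy
      obtain ⟨x, hx, rfl⟩ := List.mem_map.1 hy
      have hne := prs_ne t i hr hl x hx
      have a1 : 0 < √(P.ρ x.1) := Real.sqrt_pos.2 (P.pos _)
      have a2 : 0 < √(P.ρ x.2) := Real.sqrt_pos.2 (P.pos _)
      have a3 := hP' x.2 x.1 hne.symm
      rw [hρ] at a3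
      have e1 : P.ρ x.1 = √(P.ρ x.1) ^ 2 := (Real.sq_sqrt (P.pos _).le).symm
      have e2 : P.ρ x.2 = √(P.ρ x.2) ^ 2 := (Real.sq_sqrt (P.pos _).le).symm
      have a4 : 0 < √(P.ρ x.1) * √(P.ρ x.2) := mul_pos a1 a2
      refine ⟨div_pos a2 a1, ?_, ?_, ?_⟩
      · simp only
        rw [abs_div, abs_of_pos a4, le_div_iff₀ a4]
        have : (√(P.ρ x.2) / √(P.ρ x.1) + 1 / (√(P.ρ x.2) / √(P.ρ x.1))) *
            (√(P.ρ x.1) * √(P.ρ x.2)) = √(P.ρ x.2) ^ 2 + √(P.ρ x.1) ^ 2 := by
          field_simp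
        rw [this, ← e1, ← e2]
        exact a3.le
      · simp only
        rw [abs_div, abs_div]
        exact div_le_div_of_nonneg_right (h1 _ _) (abs_nonneg _)
      · simp only
        rw [div_mul_div_comm]
        exact div_nonneg (h2 _ _) (by positivity)

end Pool.Agent.H652Z.Strip
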