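import Pool.Agent.H652Z.Strip.QS

/-!
The limit set, equivariance along words, and a concrete family of gaps.
-/

namespace Pool.Agent.H652Z.Strip

open Matrix Filter Topology MeasureTheory

/-- the image of the imaginary unit -/
noncomputable def pt (g : SpecialLinearGroup (Fin 2) ℝ) : ℂ :=
  ((mat g 0 0 : ℂ) * Complex.I + (mat g 0 1 : ℂ)) / ((mat g 1 0 : ℂ) * Complex.I + (mat g 1 1 : ℂ))

theorem lin_ne {a b : ℝ} (h : a ≠ 0 ∨ b ≠ 0) : (a : ℂ) * Complex.I + (b : ℂ) ≠ 0 := by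
  intro e
  have h1 := congrArg Complex.re e
  have h2 := congrArg Complex.im e
  simp at h1 h2
  tauto

theorem mat_det (g : SpecialLinearGroup (Fin 2) ℝ) :
    mat g 0 0 * mat g 1 1 - mat g 0 1 * mat g 1 0 = 1 := by
  rw [← Matrix.det_fin_two]; exact g.2

theorem den_ne (g : SpecialLinearGroup (Fin 2) ℝ) :
    (mat g 1 0 : ℂ) * Complex.I + (mat g 1 1 : ℂ) ≠ 0 := by
  refine lin_ne ?_
  by_contra hc
  push Not at hc
  have := mat_det g
  rw [hc.1, hc.2] at this
  simp at this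

theorem num_ne (g : SpecialLinearGroup (Fin 2) ℝ) (r : ℝ) :
    (mat g 0 0 : ℂ) * Complex.I + (mat g 0 1 : ℂ) -
      r * ((mat g 1 0 : ℂ) * Complex.I + (mat g 1 1 : ℂ)) ≠ 0 := by
  have e : (mat g 0 0 : ℂ) * Complex.I + (mat g 0 1 : ℂ) -
      r * ((mat g 1 0 : ℂ) * Complex.I + (mat g 1 1 : ℂ)) =
      ((mat g 0 0 - r * mat g 1 0 : ℝ) : ℂ) * Complex.I + ((mat g 0 1 - r * mat g 1 1 : ℝ) : ℂ) := by
    push_cast; ring
  rw [e]
  refine lin_ne ?_
  by_contra hc
  push Not at hc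
  have := mat_det g
  rw [sub_eq_zero.1 hc.1, sub_eq_zero.1 hc.2] at this
  have h2 : (0 : ℝ) = 1 := by rw [← this]; ring
  exact zero_ne_one h2

variable {ι : Type}

theorem pt_S (P : Cfg ι) (i : ι) (g : SpecialLinearGroup (Fin 2) ℝ) :
    pt (S P i * g) = P.c i - (P.ρ i : ℂ) ^ 2 / (pt g - P.c i) := by
  have h1 := den_ne g
  have h2 := num_ne g (P.c i)
  have h3 : (P.ρ i : ℂ) ≠ 0 := by exact_mod_cast (P.pos i).ne'
  unfold pt
  obtain ⟨u, hu⟩ : ∃ u, u = (mat g 0 0 : ℂ) * Complex.I + (mat g 0 1 : ℂ) := ⟨_, rfl⟩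
  obtain ⟨v, hv⟩ : ∃ v, v = (mat g 1 0 : ℂ) * Complex.I + (mat g 1 1 : ℂ) := ⟨_, rfl⟩
  have e1 : (mat (S P i * g) 0 0 : ℂ) * Complex.I + (mat (S P i * g) 0 1 : ℂ) =
      (P.c i * (u - P.c i * v) - (P.ρ i : ℂ) ^ 2 * v) / P.ρ i := by
    rw [hu, hv, mat_mul, S_coe]
    simp [Matrix.mul_apply, Fin.sum_univ_two]
    field_simp
    ring
  have e2 : (mat (S P i * g) 1 0 : ℂ) * Complex.I + (mat (S P i * g) 1 1 : ℂ) =
      (u - P.c i * v) / P.ρ i := by
    rw [hu, hv, mat_mul, S_coe]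
    simp [Matrix.mul_apply, Fin.sum_univ_two]
    field_simp
    ring
  rw [e1, e2, ← hu, ← hv]
  rw [← hu, ← hv] at h2
  rw [← hv] at h1
  have e3 : u / v - P.c i = (u - P.c i * v) / v := by field_simp
  rw [e3]
  field_simp

theorem pt_one : pt 1 = Complex.I := by simp [pt]

theorem norm_pt_S (P : Cfg ι) (i : ι) (g : SpecialLinearGroup (Fin 2) ℝ)
    (h : P.ρ i ≤ ‖pt g - P.c i‖) : ‖pt (S P i * g) - P.c i‖ ≤ P.ρ i := by
  have hρ := P.pos i
  rw [pt_S, sub_sub_cancel_left, norm_neg, norm_div, norm_pow, Complex.norm_real, Real.norm_eq_abs,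
    abs_of_pos hρ, div_le_iff₀ (by linarith)]
  nlinarith

namespace Setup

variable {D : Setup ι}

theorem infinite (D : Setup ι) : Infinite ι := by
  by_contra hc
  have : Finite ι := not_infinite_iff_finite.1 hc
  have := D.ne
  obtain ⟨m, hm⟩ := Finite.exists_min D.ρ
  obtain ⟨k, hk⟩ := D.dense _ (D.E_right m) _ (D.pos m)
  linarith [hm k, abs_nonneg (D.c m + D.ρ m - D.c k)]

/-- orbit of the imaginary unit under words of given parity -/
def Orb (D : Setup ι) (r : ℕ) : Set ℂ := {z | ∃ w : List ι, w.length % 2 = r ∧ z = pt (M D.toCfg w)}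

theorem near_one (k : ι) : ‖pt (M D.toCfg [k]) - D.c k‖ ≤ D.ρ k := by
  rw [M_cons]
  refine norm_pt_S _ _ _ ((D.le1 k).trans ?_)
  rw [M_nil, pt_one]
  simpa using Complex.abs_im_le_norm (Complex.I - D.c k)

theorem near_two {k l : ι} (h : l ≠ k) : ‖pt (M D.toCfg [k, l]) - D.c k‖ ≤ D.ρ k := by
  rw [M_cons]
  refine norm_pt_S _ _ _ ?_
  have h1 := near_one (D := D) l
  have h2 := D.sep0 l k h
  have h3 : |D.c l - D.c k| ≤ ‖pt (M D.toCfg [l]) - D.c k‖ + ‖pt (M D.toCfg [l]) - D.c l‖ := by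
    rw [← Real.norm_eq_abs, ← Complex.norm_real]
    refine le_trans (le_of_eq ?_) (norm_sub_le _ _)
    congr 1
    push_cast
    ring
  linarith

theorem E_mem {x : ℝ} (hx : D.E x) {r : ℕ} (hr : r = 0 ∨ r = 1) : (x : ℂ) ∈ closure (D.Orb r) := by
  have := D.infinite
  rw [Metric.mem_closure_iff]
  intro ε hε
  obtain ⟨k, hk⟩ := D.dense x hx ε hε
  have key : ∀ z : ℂ, ‖z - D.c k‖ ≤ D.ρ k → dist (x : ℂ) z < ε := by
    intro z hz
    have h1 := dist_triangle_right (x : ℂ) z (D.c k)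
    rw [dist_eq_norm z, Complex.dist_of_im_eq (z := x) (w := D.c k) (by simp), Real.dist_eq] at h1
    simp only [Complex.ofReal_re] at h1
    linarith
  rcases hr with rfl | rfl
  · obtain ⟨l, hl⟩ := exists_ne k
    exact ⟨_, ⟨[k, l], by simp, rfl⟩, key _ (near_two hl)⟩
  · exact ⟨_, ⟨[k], rfl, rfl⟩, key _ (near_one k)⟩

theorem g_mem {k : ι} {x : ℝ} (hx : x ≠ D.c k) {r r' : ℕ} (hr : r' = (r + 1) % 2)
    (h : (x : ℂ) ∈ closure (D.Orb r)) : ((D.g k x : ℝ) : ℂ) ∈ closure (D.Orb r') := by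
  have hc : ContinuousAt (fun z : ℂ => (D.c k : ℂ) - (D.ρ k : ℂ) ^ 2 / (z - D.c k)) x :=
    continuousAt_const.sub (continuousAt_const.div (continuousAt_id.sub continuousAt_const)
      (sub_ne_zero.2 (by exact_mod_cast hx)))
  have h1 := mem_closure_image hc h
  have e : ((D.g k x : ℝ) : ℂ) = (D.c k : ℂ) - (D.ρ k : ℂ) ^ 2 / (x - D.c k) := by
    unfold g mob; push_cast; rfl
  rw [e]
  refine closure_mono ?_ h1
  rintro _ ⟨_, ⟨w, hw, rfl⟩, rfl⟩
  refine ⟨k :: w, by simp only [List.length_cons]; omega, ?_⟩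
  rw [M_cons, pt_S]

theorem first_kind (x : ℝ) : (x : ℂ) ∈ closure (D.Orb 0) :=
  (eq_univ (D := D) (Λ := {x : ℝ | (x : ℂ) ∈ closure (D.Orb 0) ∧ (x : ℂ) ∈ closure (D.Orb 1)})
    ((isClosed_closure.preimage Complex.continuous_ofReal).inter
      (isClosed_closure.preimage Complex.continuous_ofReal))
    (fun _ hx => ⟨E_mem hx (Or.inl rfl), E_mem hx (Or.inr rfl)⟩)
    (fun _ _ hx h => ⟨g_mem hx rfl h.2, g_mem hx rfl h.1⟩) x).1

/-- projective points that correspond under `h` -/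
def Rel (h : ℝ → ℝ) (v v' : ℝ × ℝ) : Prop :=
  (v.2 = 0 ∧ v'.2 = 0 ∧ v.1 ≠ 0 ∧ v'.1 ≠ 0) ∨ (v.2 ≠ 0 ∧ v'.2 ≠ 0 ∧ h (v.1 / v.2) = v'.1 / v'.2)

variable {h : ℝ → ℝ}

theorem IsH.rel_S (hh : D.IsH h) (i : ι) {v v' : ℝ × ℝ} (r : Rel h v v') :
    Rel h (act (S D.toCfg i) v) (act (S D.P' i) v') := by
  have hρ := (D.pos i).ne'
  unfold Rel
  rw [act_S_fst, act_S_fst, act_S_snd, act_S_snd]
  change _ ∨ _
  simp only [P']
  obtain ⟨a, b⟩ := v
  obtain ⟨a', b'⟩ := v'
  rcases r with ⟨r1, r2, r3, r4⟩ | ⟨r1, r2, r3⟩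
  · simp only at r1 r2 r3 r4
    subst r1 r2
    refine Or.inr ⟨by simp [r3, hρ], by simp [r4, hρ], ?_⟩
    simp [r3, r4, hρ, hh.cen]
  · simp only at r1 r2 r3 ⊢
    by_cases hc : a / b = D.c i
    · have e1 : a - D.c i * b = 0 := by rw [← hc]; field_simp; ring
      have e2 : a' - D.H (D.c i) * b' = 0 := by rw [← hh.cen, ← hc, r3]; field_simp; ring
      rw [e1, e2]
      exact Or.inl ⟨by simp, by simp, by simp [hρ, r1], by simp [hρ, r2]⟩
    · obtain ⟨e1, e2⟩ := hh.equi i _ hc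
      rw [r3] at e1 e2
      have n1 : a - D.c i * b ≠ 0 := fun e => hc (by rw [sub_eq_zero.1 e]; field_simp)
      have n2 : a' - D.H (D.c i) * b' ≠ 0 := fun e => e1 (by rw [sub_eq_zero.1 e]; field_simp)
      refine Or.inr ⟨div_ne_zero n1 hρ, div_ne_zero n2 hρ, ?_⟩
      have f : ∀ x y c : ℝ, y ≠ 0 → x - c * y ≠ 0 →
          (c * ((x - c * y) / D.ρ i) - D.ρ i * y) / ((x - c * y) / D.ρ i) =
            mob c (D.ρ i ^ 2) c (x / y) := by
        intro x y c hy hx
        have e : x / y - c = (x - c * y) / y := by field_simp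
        rw [mob, e]
        field_simp
      rw [f _ _ _ r1 n1, f _ _ _ r2 n2]
      exact e2

theorem IsH.rel_M (hh : D.IsH h) (w : List ι) (x : ℝ) :
    Rel h (act (M D.toCfg w) (x, 1)) (act (M D.P' w) (h x, 1)) := by
  induction w with
  | nil => rw [M_nil, M_nil, act_one, act_one]; exact Or.inr ⟨one_ne_zero, one_ne_zero, by simp⟩
  | cons i w ih => rw [M_cons, M_cons, act_mul, act_mul]; exact hh.rel_S i ih

theorem trace_P' (w : List ι) (hw : w.length % 2 = 0) :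
    |trace (mat (M D.P' w))| ≤ |trace (mat (M D.toCfg w))| := by
  refine trace_le (P := D.toCfg) D.sep' rfl (fun i j => ?_) (fun i j => ?_) w hw
  · obtain ⟨μ, h1, h2, h3⟩ := D.H_ratio (D.c j) (D.c i)
    change |D.H (D.c i) - D.H (D.c j)| ≤ _
    rw [h3, abs_mul, abs_of_pos (by linarith : 0 < μ)]
    nlinarith [abs_nonneg (D.c i - D.c j)]
  · obtain ⟨μ, h1, h2, h3⟩ := D.H_ratio (D.c j) (D.c i)
    change 0 ≤ _ * (D.H (D.c i) - D.H (D.c j))
    rw [h3]
    nlinarith [sq_nonneg (D.c i - D.c j)]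

end Setup

theorem exists_setup : ∃ ι : Type, Nonempty (Setup ι) := by
  let q : ℕ → ℝ := fun n => TopologicalSpace.denseSeq ℝ n.unpair.1
  let ρ : ℕ → ℝ := fun n => (1 / 2) ^ n
  have hρ : ∀ n, 0 < ρ n := fun n => by positivity
  let R : ℕ → ℕ → Prop := fun i j => ρ i + ρ j + 16 * min (ρ i) (ρ j) ≤ |q i - q j|
  have hR : Std.Symm R := ⟨fun i j h => by
    simp only [R] at h ⊢
    rwa [add_comm (ρ j), min_comm, abs_sub_comm]⟩
  obtain ⟨T, hT⟩ := zorn_subset {s : Set ℕ | s.Pairwise R} fun c hc hch =>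
    ⟨⋃₀ c, (hch.pairwise_sUnion).2 fun s hs => hc hs, fun s hs => Set.subset_sUnion_of_mem hs⟩
  have hA : ∀ y η, 0 < η → ∃ m ∈ T, |y - q m| < ρ m + η := by
    intro y η hη
    obtain ⟨a, ha⟩ := Metric.denseRange_iff.1 (TopologicalSpace.denseRange_denseSeq ℝ) y (η / 2)
      (by linarith)
    obtain ⟨N, hN⟩ := exists_pow_lt_of_lt_one (x := η / 34) (y := (1 / 2 : ℝ)) (by linarith)
      (by norm_num)
    have h1 : |y - q (Nat.pair a N)| < η / 2 := by simpa [q, Real.dist_eq] using ha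
    have h2 : ρ (Nat.pair a N) < η / 34 :=
      (pow_le_pow_of_le_one (by norm_num) (by norm_num) (Nat.right_le_pair a N)).trans_lt hN
    generalize Nat.pair a N = n at h1 h2
    by_cases hn : n ∈ T
    · exact ⟨n, hn, by linarith [hρ n]⟩
    by_contra hc
    push Not at hc
    refine hn (hT.2 (y := insert n T) (Set.pairwise_insert_of_symm.2 ⟨hT.1, ?_⟩)
      (Set.subset_insert _ _) (Set.mem_insert _ _))
    intro m hm _
    have h3 := hc m hm
    have h4 : |y - q m| ≤ |y - q n| + |q n - q m| := abs_sub_le _ _ _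
    have h5 := min_le_left (ρ n) (ρ m)
    simp only [R]
    linarith
  let U : Set ℝ := ⋃ i : T, Set.Icc (q i - ρ i) (q i + ρ i)
  have hU : MeasurableSet U := MeasurableSet.iUnion fun _ => measurableSet_Icc
  have hfin : volume U < ⊤ := by
    refine (measure_iUnion_le _).trans_lt ?_
    have hs : Summable fun n => 2 * ρ n := summable_geometric_two.mul_left 2
    have e : ∀ i : T, volume (Set.Icc (q i - ρ i) (q i + ρ i)) = ENNReal.ofReal (2 * ρ i) := by
      intro i; rw [Real.volume_Icc]; congr 1; ring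
    simp only [e]
    rw [← ENNReal.ofReal_tsum_of_nonneg (f := fun i : T => 2 * ρ i) (fun i => by linarith [hρ i])
      (hs.subtype T)]
    exact ENNReal.ofReal_lt_top
  let μ : Measure ℝ := volume.restrict U
  have : IsFiniteMeasure μ := isFiniteMeasure_restrict.2 hfin.ne
  let F : ℝ → ℝ := fun x => μ.real (Set.Iic x)
  have hF : ∀ x y, x ≤ y → F y - F x = volume.real (Set.Ioc x y ∩ U) := by
    intro x y h
    have e := measureReal_union (μ := μ) (Set.Iic_disjoint_Ioc (le_refl x) (c := y))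
      measurableSet_Ioc
    rw [Set.Iic_union_Ioc_eq_Iic h, measureReal_restrict_apply measurableSet_Ioc] at e
    simp only [F]
    linarith
  have hgap : ∀ (i : T) x y, q i - ρ i ≤ x → x ≤ y → y ≤ q i + ρ i → F y - F x = y - x := by
    intro i x y h1 h2 h3
    rw [hF x y h2, Set.inter_eq_left.2, Real.volume_real_Ioc_of_le h2]
    exact fun z hz => Set.mem_iUnion.2 ⟨i, by linarith [hz.1], by linarith [hz.2]⟩
  refine ⟨T, ⟨⟨⟨fun i => q i, fun i => ρ i, fun i => hρ i⟩, fun x => x / 2 + F x / 2,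
    fun i j h => hT.1 i.2 j.2 (Subtype.coe_ne_coe.2 h),
    fun i => pow_le_one₀ (by norm_num) (by norm_num), fun x y h => ?_, fun x y h => ?_,
    fun i x h => ?_, fun x hx ε hε => ?_, ⟨μ.real Set.univ, fun x => ?_⟩, ?_⟩⟩⟩
  · have := hF x y h
    have : 0 ≤ volume.real (Set.Ioc x y ∩ U) := measureReal_nonneg
    linarith
  · have := hF x y h
    have h2 : volume.real (Set.Ioc x y ∩ U) ≤ volume.real (Set.Ioc x y) :=
      measureReal_mono Set.inter_subset_left (by simp)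
    rw [Real.volume_real_Ioc_of_le h] at h2
    linarith
  · obtain ⟨h1, h2⟩ := abs_le.1 h
    dsimp only at h1 h2 ⊢
    have := hρ i
    rcases le_total x (q i) with c | c
    · linarith [hgap i x (q i) (by linarith) c (by linarith)]
    · linarith [hgap i (q i) x (by linarith) c (by linarith)]
  · by_contra hc
    push Not at hc
    dsimp only at hx hc
    obtain ⟨m, hm, a1⟩ := hA (x + ε / 4) (ε / 8) (by linarith)
    obtain ⟨m', hm', a2⟩ := hA (x - ε / 4) (ε / 8) (by linarith)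
    have b1 := hx ⟨m, hm⟩
    have b2 := hx ⟨m', hm'⟩
    have c1 := hc ⟨m, hm⟩
    have c2 := hc ⟨m', hm'⟩
    dsimp only at b1 b2 c1 c2
    obtain ⟨a3, a4⟩ := abs_lt.1 a1
    obtain ⟨a5, a6⟩ := abs_lt.1 a2
    have p1 := hρ m
    have p2 := hρ m'
    have d1 : x - q m ≤ -ρ m := by rcases le_abs'.1 b1 with d | d <;> linarith
    have d2 : ρ m' ≤ x - q m' := by rcases le_abs'.1 b2 with d | d <;> linarith
    rw [abs_of_neg (by linarith)] at c1
    rw [abs_of_pos (by linarith)] at c2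
    have hne : m ≠ m' := by rintro rfl; linarith
    have h3 := hT.1 hm hm' hne
    simp only [R] at h3
    rw [abs_of_pos (by linarith)] at h3
    have h4 : ε / 4 < min (ρ m) (ρ m') := lt_min (by linarith) (by linarith)
    linarith
  · have h1 : 0 ≤ F x := measureReal_nonneg
    have h2 : F x ≤ μ.real Set.univ := measureReal_mono (Set.subset_univ _)
    rw [abs_le]
    constructor <;> linarith
  · obtain ⟨m, hm, -⟩ := hA 0 1 one_pos
    exact ⟨⟨m, hm⟩⟩

end Pool.Agent.H652Z.Strip
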