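import Pool.Agent.H652Z.Strip.Desc

/-!
Quasisymmetry of the boundary map.
-/

namespace Pool.Agent.H652Z.Strip

/-- difference quotient between two bounds -/
def Rat (f : ℝ → ℝ) (lo hi a b : ℝ) : Prop := ∃ μ, lo ≤ μ ∧ μ ≤ hi ∧ f b - f a = μ * (b - a)

theorem Rat.symm {f : ℝ → ℝ} {lo hi a b : ℝ} (h : Rat f lo hi a b) : Rat f lo hi b a := by
  obtain ⟨μ, h1, h2, h3⟩ := h
  exact ⟨μ, h1, h2, by linarith⟩

theorem Rat.of_le {f : ℝ → ℝ} {lo hi a b : ℝ} (h0 : lo ≤ hi) (hab : a ≤ b)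
    (h1 : lo * (b - a) ≤ f b - f a) (h2 : f b - f a ≤ hi * (b - a)) : Rat f lo hi a b := by
  rcases hab.eq_or_lt with rfl | h
  · exact ⟨lo, le_rfl, h0, by simp⟩
  · have hd : 0 < b - a := by linarith
    exact ⟨(f b - f a) / (b - a), by rwa [le_div_iff₀ hd], by rwa [div_le_iff₀ hd], by field_simp⟩

theorem Rat.le {f : ℝ → ℝ} {lo hi a b : ℝ} (h : Rat f lo hi a b) (hab : a ≤ b) :
    lo * (b - a) ≤ f b - f a ∧ f b - f a ≤ hi * (b - a) := by
  obtain ⟨μ, h1, h2, h3⟩ := h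
  rw [h3]
  exact ⟨mul_le_mul_of_nonneg_right h1 (by linarith), mul_le_mul_of_nonneg_right h2 (by linarith)⟩

theorem Rat.trans {f : ℝ → ℝ} {lo hi a b c : ℝ} (h : Rat f lo hi a b) (h' : Rat f lo hi b c)
    (hab : a ≤ b) (hbc : b ≤ c) : Rat f lo hi a c := by
  have h0 : lo ≤ hi := by obtain ⟨μ, h1, h2, -⟩ := h; linarith
  obtain ⟨a1, a2⟩ := h.le hab
  obtain ⟨b1, b2⟩ := h'.le hbc
  exact Rat.of_le h0 (hab.trans hbc) (by linarith) (by linarith)

theorem Rat.mono {f : ℝ → ℝ} {lo hi lo' hi' a b : ℝ} (h : Rat f lo hi a b) (h1 : lo' ≤ lo)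
    (h2 : hi ≤ hi') : Rat f lo' hi' a b := by
  obtain ⟨μ, a1, a2, a3⟩ := h
  exact ⟨μ, by linarith, by linarith, a3⟩

/-- difference quotients in a chart, two finite points -/
theorem rat_two {f F : ℝ → ℝ} {y κ p y' κ' a b l u l' u' : ℝ} (hκ : 0 < κ) (hκ' : 0 < κ')
    (hl : 0 < l) (hl' : 0 < l') (ha : a ≠ p) (hb : b ≠ p)
    (fa : f (mob y κ p a) = mob y' κ' (F p) (F a)) (fb : f (mob y κ p b) = mob y' κ' (F p) (F b))
    (r : Rat F l u a b) (ra : Rat F l' u' p a) (rb : Rat F l' u' p b) :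
    Rat f (κ' / κ * (l / (u' * u'))) (κ' / κ * (u / (l' * l'))) (mob y κ p a) (mob y κ p b) := by
  obtain ⟨μ, m1, m2, m3⟩ := r
  obtain ⟨μa, a1, a2, a3⟩ := ra
  obtain ⟨μb, b1, b2, b3⟩ := rb
  have ha' := sub_ne_zero.2 ha
  have hb' := sub_ne_zero.2 hb
  have pa : 0 < μa := by linarith
  have pb : 0 < μb := by linarith
  have pm : 0 < μ := by linarith
  have na : F a ≠ F p := sub_ne_zero.1 (by rw [a3]; positivity)
  have nb : F b ≠ F p := sub_ne_zero.1 (by rw [b3]; positivity)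
  refine ⟨κ' / κ * (μ / (μa * μb)), ?_, ?_, ?_⟩
  · refine mul_le_mul_of_nonneg_left ?_ (by positivity)
    exact div_le_div₀ pm.le m1 (by positivity) (mul_le_mul a2 b2 pb.le (by linarith))
  · refine mul_le_mul_of_nonneg_left ?_ (by positivity)
    exact div_le_div₀ (by linarith) m2 (by positivity) (mul_le_mul a1 b1 hl'.le pa.le)
  · rw [fa, fb, mob_sub nb na, mob_sub hb ha, m3, a3, b3]
    field_simp

/-- difference quotients in a chart, one finite point -/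
theorem rat_one {f F : ℝ → ℝ} {y κ p κ' a l' u' : ℝ} (hκ : 0 < κ) (hκ' : 0 < κ')
    (hl' : 0 < l') (ha : a ≠ p) (fa : f (mob y κ p a) = mob (f y) κ' (F p) (F a))
    (ra : Rat F l' u' p a) : Rat f (κ' / κ * (1 / u')) (κ' / κ * (1 / l')) y (mob y κ p a) := by
  obtain ⟨μa, a1, a2, a3⟩ := ra
  have ha' := sub_ne_zero.2 ha
  have pa : 0 < μa := by linarith
  refine ⟨κ' / κ * (1 / μa), ?_, ?_, ?_⟩
  · exact mul_le_mul_of_nonneg_left (one_div_le_one_div_of_le pa a2) (by positivity)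
  · exact mul_le_mul_of_nonneg_left (one_div_le_one_div_of_le hl' a1) (by positivity)
  · rw [fa]
    unfold mob
    rw [a3]
    field_simp
    ring

theorem chart {f : ℝ → ℝ} (hf : Monotone f) {G : ℝ → Prop} {s x t : ℝ} (hs : 0 < s) (ht : 0 < t)
    (h1 : ∀ a b, G a → G b → a ≤ b → Rat f (s / 64) (s * 64) a b)
    (h2 : ∀ q, x - t ≤ q → q ≤ x + t → ∃ u v, G u ∧ G v ∧ u ≤ q ∧ q ≤ v ∧ v - u ≤ t / 4) :
    s * t / 128 ≤ f (x + t) - f x ∧ f (x + t) - f x ≤ 96 * (s * t) ∧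
      s * t / 128 ≤ f x - f (x - t) ∧ f x - f (x - t) ≤ 96 * (s * t) := by
  have key : ∀ a, x - t ≤ a → a + t ≤ x + t →
      s * t / 128 ≤ f (a + t) - f a ∧ f (a + t) - f a ≤ 96 * (s * t) := by
    intro a a1 a2
    obtain ⟨u, v, gu, gv, b1, b2, b3⟩ := h2 a a1 (by linarith)
    obtain ⟨u', v', gu', gv', c1, c2, c3⟩ := h2 (a + t) (by linarith) a2
    have d1 := ((h1 v u' gv gu' (by linarith)).le (by linarith)).1
    have d2 := ((h1 u v' gu gv' (by linarith)).le (by linarith)).2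
    have e1 : s / 64 * (t / 2) ≤ s / 64 * (u' - v) :=
      mul_le_mul_of_nonneg_left (by linarith) (by positivity)
    have e2 : s * 64 * (v' - u) ≤ s * 64 * (3 * t / 2) :=
      mul_le_mul_of_nonneg_left (by linarith) (by positivity)
    constructor <;> linarith [hf b1, hf b2, hf c1, hf c2]
  have k1 := key x (by linarith) le_rfl
  have k2 := key (x - t) le_rfl (by linarith)
  rw [sub_add_cancel] at k2
  exact ⟨k1.1, k1.2, k2.1, k2.2⟩

theorem continuous_of_qs {f : ℝ → ℝ} (hf : Monotone f) {M : ℝ} (hM : 0 < M)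
    (h : ∀ x t, 0 < t → f (x + t) - f x ≤ M * (f x - f (x - t)) ∧
      f x - f (x - t) ≤ M * (f (x + t) - f x)) : Continuous f := by
  have hθ : M / (M + 1) < 1 := by rw [div_lt_one (by linarith)]; linarith
  have hθ0 : 0 < M / (M + 1) := by positivity
  rw [Metric.continuous_iff]
  intro x ε hε
  have key : ∀ n : ℕ, f (x + (1 / 2) ^ n) - f x ≤ (M / (M + 1)) ^ n * (f (x + 1) - f (x - 1)) ∧
      f x - f (x - (1 / 2) ^ n) ≤ (M / (M + 1)) ^ n * (f (x + 1) - f (x - 1)) := by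
    intro n
    induction n with
    | zero =>
      simp only [pow_zero, one_mul]
      constructor <;> linarith [hf (show x ≤ x + 1 by linarith), hf (show x - 1 ≤ x by linarith)]
    | succ n ih =>
      have ht : (0 : ℝ) < (1 / 2) ^ (n + 1) := by positivity
      have a1 := (h (x + (1 / 2) ^ (n + 1)) _ ht).2
      have a2 := (h (x - (1 / 2) ^ (n + 1)) _ ht).1
      have e1 : x + (1 / 2 : ℝ) ^ (n + 1) + (1 / 2) ^ (n + 1) = x + (1 / 2) ^ n := by ring
      have e2 : x - (1 / 2 : ℝ) ^ (n + 1) - (1 / 2) ^ (n + 1) = x - (1 / 2) ^ n := by ring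
      rw [e1, add_sub_cancel_right] at a1
      rw [e2, sub_add_cancel] at a2
      have e3 : (M / (M + 1)) ^ (n + 1) * (f (x + 1) - f (x - 1)) =
          M * ((M / (M + 1)) ^ n * (f (x + 1) - f (x - 1))) / (M + 1) := by
        rw [pow_succ]; field_simp
      rw [e3, le_div_iff₀ (by linarith), le_div_iff₀ (by linarith)]
      constructor
      · nlinarith [mul_le_mul_of_nonneg_left ih.1 hM.le]
      · nlinarith [mul_le_mul_of_nonneg_left ih.2 hM.le]
  have hD : 0 ≤ f (x + 1) - f (x - 1) := by linarith [hf (show x - 1 ≤ x + 1 by linarith)]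
  obtain ⟨n, hn⟩ := exists_pow_lt_of_lt_one (x := ε / (f (x + 1) - f (x - 1) + 1))
    (by positivity) hθ
  rw [lt_div_iff₀ (by linarith)] at hn
  have hp := pow_pos hθ0 n
  refine ⟨(1 / 2) ^ n, by positivity, fun a ha => ?_⟩
  rw [Real.dist_eq, abs_lt] at ha ⊢
  have b1 := hf (show a ≤ x + (1 / 2) ^ n by linarith)
  have b2 := hf (show x - (1 / 2) ^ n ≤ a by linarith)
  obtain ⟨k1, k2⟩ := key n
  constructor <;> nlinarith

namespace Setup

variable {ι : Type} (D : Setup ι)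

/-- good points of a gap -/
def Gk (k : ι) (a : ℝ) : Prop := a = D.c k ∨ ∃ b, D.E b ∧ a = D.g k b

/-- good points -/
def Gd (a : ℝ) : Prop := D.E a ∨ ∃ k, D.Gk k a

variable {D}

theorem c_in (k : ι) : |D.c k - D.c k| < D.ρ k := by simpa using D.pos k

theorem Gk.abs {k : ι} {a : ℝ} (h : D.Gk k a) : |a - D.c k| ≤ D.ρ k := by
  rcases h with rfl | ⟨b, hb, rfl⟩
  · exact (c_in k).le
  · exact mob_in (D.pos k) (hb k)

theorem Gk_right (k : ι) : D.Gk k (D.c k + D.ρ k) := Or.inr ⟨_, D.E_left k, (D.g_left k).symm⟩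

theorem Gk_left (k : ι) : D.Gk k (D.c k - D.ρ k) := Or.inr ⟨_, D.E_right k, (D.g_right k).symm⟩

theorem sandwich (a : ℝ) : D.Gd a ∨ ∃ k u v, |a - D.c k| < D.ρ k ∧ D.Gd u ∧ D.Gd v ∧
    D.c k - D.ρ k ≤ u ∧ u ≤ a ∧ a ≤ v ∧ v ≤ D.c k + D.ρ k ∧
    CR (D.c k - D.ρ k) u v (D.c k + D.ρ k) := by
  rcases E_or (D := D) a with h | ⟨k, hk⟩
  · exact Or.inl (Or.inl h)
  by_cases hc : a = D.c k
  · exact Or.inl (Or.inr ⟨k, Or.inl hc⟩)
  rcases E_or (D := D) (D.g k a) with h | ⟨l, hl⟩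
  · exact Or.inl (Or.inr ⟨k, Or.inr ⟨_, h, (D.g_g hc).symm⟩⟩)
  have ho : D.ρ k < |D.g k a - D.c k| := mob_out (D.pos k) hc hk
  have hlk : l ≠ k := by rintro rfl; linarith
  obtain ⟨b1, b2⟩ := abs_lt.1 hl
  have hρ := pow_pos (D.pos k) 2
  have gu : D.Gk k (D.g k (D.c l - D.ρ l)) := Or.inr ⟨_, D.E_left l, rfl⟩
  have gv : D.Gk k (D.g k (D.c l + D.ρ l)) := Or.inr ⟨_, D.E_right l, rfl⟩
  have c1 := mob_le_gap (y := D.c k) hlk (c_in k) hρ le_rfl (v := D.g k a) (by linarith)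
    (by linarith)
  have c2 := mob_le_gap (y := D.c k) hlk (c_in k) hρ (u := D.g k a) (by linarith) (by linarith)
    le_rfl
  have e : mob (D.c k) (D.ρ k ^ 2) (D.c k) (D.g k a) = a := D.g_g hc
  rw [e] at c1 c2
  have cr := (CR_basic (D := D) hlk).map (y := D.c k) (κ := D.ρ k ^ 2) (p := D.c k)
    (ne_of_out (c_in k) (D.E_right k k)) (ne_of_out (c_in k) (D.E_left l k))
    (ne_of_out (c_in k) (D.E_right l k)) (ne_of_out (c_in k) (D.E_left k k))
  rw [mob_right (D.pos k), mob_left (D.pos k)] at cr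
  exact Or.inr ⟨k, _, _, hk, Or.inr ⟨k, gu⟩, Or.inr ⟨k, gv⟩, by linarith [(abs_le.1 gu.abs).1],
    c1, c2, by linarith [(abs_le.1 gv.abs).2], cr⟩

variable {h : ℝ → ℝ}

theorem IsH.rat_E (hh : D.IsH h) {a b : ℝ} (ha : D.E a) (hb : D.E b) : Rat h (1 / 2) 4 a b := by
  obtain ⟨μ, h1, h2, h3⟩ := D.H_ratio a b
  exact ⟨μ, h1, by linarith, by rw [hh.adm.1 a ha, hh.adm.1 b hb, h3]⟩

theorem IsH.rat_same (hh : D.IsH h) {k : ι} {a b : ℝ} (ha : D.Gk k a) (hb : D.Gk k b) :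
    Rat h (1 / 2) 4 a b := by
  have hρ := pow_pos (D.pos k) 2
  have e : ∀ x, D.E x → h (mob (D.c k) (D.ρ k ^ 2) (D.c k) x) =
      mob (h (D.c k)) (D.ρ k ^ 2) (D.H (D.c k)) (D.H x) := fun x hx => by
    rw [hh.cen, ← hh.adm.1 x hx]
    exact (hh.equi k x (ne_of_out (c_in k) (hx k))).2
  have one : ∀ x, D.E x → Rat h (1 / 2) 4 (D.c k) (D.g k x) := fun x hx =>
    (rat_one hρ hρ (by norm_num) (ne_of_out (c_in k) (hx k)) (e x hx) (D.H_ratio _ x)).mono
      (by rw [div_self hρ.ne']; norm_num) (by rw [div_self hρ.ne']; norm_num)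
  rcases ha with rfl | ⟨a, ha, rfl⟩
  · rcases hb with rfl | ⟨b, hb, rfl⟩
    · exact ⟨1, by norm_num, by norm_num, by simp⟩
    · exact one b hb
  · rcases hb with rfl | ⟨b, hb, rfl⟩
    · exact (one a ha).symm
    · exact (rat_two hρ hρ (by norm_num) (by norm_num) (ne_of_out (c_in k) (ha k))
        (ne_of_out (c_in k) (hb k)) (e a ha) (e b hb) (D.H_ratio a b) (D.H_ratio _ a)
        (D.H_ratio _ b)).mono (by rw [div_self hρ.ne']; norm_num)
        (by rw [div_self hρ.ne']; norm_num)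

theorem IsH.rat_GE (hh : D.IsH h) {k : ι} {a b : ℝ} (ha : D.Gk k a) (hb : D.E b) :
    Rat h (1 / 2) 4 a b := by
  obtain ⟨a1, a2⟩ := abs_le.1 ha.abs
  rcases le_abs'.1 (hb k) with c | c
  · exact ((hh.rat_E hb (D.E_left k)).trans (hh.rat_same (Gk_left k) ha) (by linarith)
      (by linarith)).symm
  · exact (hh.rat_same ha (Gk_right k)).trans (hh.rat_E (D.E_right k) hb) (by linarith)
      (by linarith)

theorem IsH.rat_Gd (hh : D.IsH h) {a b : ℝ} (ha : D.Gd a) (hb : D.Gd b) :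
    Rat h (1 / 2) 4 a b := by
  rcases ha with ha | ⟨k, ha⟩
  · rcases hb with hb | ⟨l, hb⟩
    · exact hh.rat_E ha hb
    · exact (hh.rat_GE hb ha).symm
  · rcases hb with hb | ⟨l, hb⟩
    · exact hh.rat_GE ha hb
    · by_cases e : l = k
      · subst e; exact hh.rat_same ha hb
      · obtain ⟨a1, a2⟩ := abs_le.1 ha.abs
        obtain ⟨b1, b2⟩ := abs_le.1 hb.abs
        rcases side (D := D) e with c | c
        · exact (hh.rat_GE ha (D.E_right k)).trans (hh.rat_GE hb (D.E_right k)).symm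
            (by linarith) (by linarith)
        · exact ((hh.rat_GE hb (D.E_left k)).trans (hh.rat_GE ha (D.E_left k)).symm
            (by linarith) (by linarith)).symm

theorem IsH.rat_pole (hh : D.IsH h) {j : ι} {p a : ℝ} (hp : |p - D.c j| < D.ρ j) (ha : D.Gd a)
    (ho : D.ρ j ≤ |a - D.c j|) : Rat h (1 / 4) 5 p a := by
  rcases sandwich (D := D) p with hg | ⟨k, u, v, a1, a2, a3, a4, a5, a6, a7, a8⟩
  · exact (hh.rat_Gd hg ha).mono (by norm_num) (by norm_num)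
  · obtain rfl := D.uniq a1.le hp.le
    obtain ⟨s1, s2⟩ := a8.small a4 (a5.trans a6) a7 (by linarith [D.pos k])
    have m1 := hh.mono a5
    have m2 := hh.mono a6
    rcases le_abs'.1 ho with c | c
    · have r1 := ((hh.rat_Gd ha a2).le (by linarith)).1
      have r2 := ((hh.rat_Gd ha a3).le (by linarith)).2
      exact (Rat.of_le (by norm_num) (by linarith) (by linarith) (by linarith)).symm
    · have r1 := ((hh.rat_Gd a3 ha).le (by linarith)).1
      have r2 := ((hh.rat_Gd a2 ha).le (by linarith)).2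
      exact Rat.of_le (by norm_num) (by linarith) (by linarith) (by linarith)

theorem IsH.lt_in (hh : D.IsH h) {j : ι} {p : ℝ} (hp : |p - D.c j| < D.ρ j) :
    |h p - D.H (D.c j)| < D.ρ j := by
  obtain ⟨p1, p2⟩ := abs_lt.1 hp
  have r1 := ((hh.rat_pole hp (Or.inl (D.E_right j)) (abs_right j).ge).le (by linarith)).1
  have r2 := ((hh.rat_pole hp (Or.inl (D.E_left j)) (abs_left j).ge).symm.le (by linarith)).1
  rw [hh.adm.1 _ (D.E_right j), H_right] at r1
  rw [hh.adm.1 _ (D.E_left j), H_left] at r2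
  rw [abs_lt]
  constructor <;> linarith

theorem IsH.bounds (hh : D.IsH h) (x t : ℝ) (ht : 0 < t) : ∃ s, 0 < s ∧
    s * t / 128 ≤ h (x + t) - h x ∧ h (x + t) - h x ≤ 96 * (s * t) ∧
      s * t / 128 ≤ h x - h (x - t) ∧ h x - h (x - t) ≤ 96 * (s * t) := by
  rcases descent (D := D) (fun j p κ y => ∃ κ', 0 < κ' ∧ ∀ a, D.ρ j ≤ |a - D.c j| →
      h (mob y κ p a) = mob (h y) κ' (h p) (h a))
    (fun k => ⟨D.ρ k ^ 2, pow_pos (D.pos k) 2, fun a ha => by
      rw [hh.cen]; exact (hh.equi k a (ne_of_out (c_in k) ha)).2⟩)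
    (fun j p κ y k a1 _ a3 ⟨κ', a4, a5⟩ => by
      have hk := D.pos k
      have hp := hh.equi k p (ne_of_out (c_in k) (out_of_ne a3.symm a1.le).le)
      have hp' := sub_ne_zero.2 hp.1.symm
      refine ⟨κ' * D.ρ k ^ 2 / (D.H (D.c k) - h p) ^ 2, by positivity, fun b hb => ?_⟩
      have hb' := hh.equi k b (ne_of_out (c_in k) hb)
      rw [step_eq a3 a1 hb, a5 (D.g k b) (out_of_ne a3 (mob_in hk hb)).le,
        a5 _ (out_of_ne a3 (c_in k).le).le, hh.cen, hp.2, hb'.2]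
      refine (mob_comp (pow_pos hk 2).ne' hp.1 hb'.1 ?_).symm
      intro e
      have b1 := hh.lt_in (g_in a3 a1)
      have b2 := hh.adm.out hb
      rw [hp.2] at b1
      rw [e] at b2
      exact absurd b1 (not_lt.2 b2))
    (q1 := x - t) (q2 := x + t) (by linarith) with hc | ⟨j, p, κ, y, a1, a2, ⟨κ', b1, b2⟩, a4, a5, a6⟩
  · refine ⟨1, one_pos, chart hh.mono (G := D.Gd) one_pos ht
      (fun a b ha hb _ => (hh.rat_Gd ha hb).mono (by norm_num) (by norm_num)) fun q q1 q2 => ?_⟩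
    rcases sandwich (D := D) q with hg | ⟨k, u, v, -, c2, c3, c4, c5, c6, c7, c8⟩
    · exact ⟨q, q, hg, hg, le_rfl, le_rfl, by linarith⟩
    · exact ⟨u, v, c2, c3, c5, c6, by
        linarith [c8.sand c4 c5 c6 c7 (by linarith [D.pos k]) q1 q2 (hc k)]⟩
  · have hs : 0 < κ' / κ := by positivity
    refine ⟨κ' / κ, hs, chart hh.mono
      (G := fun q => q = y ∨ ∃ a, D.Gd a ∧ D.ρ j ≤ |a - D.c j| ∧ q = mob y κ p a) hs ht ?_
      fun q q1 q2 => ?_⟩
    · have one : ∀ a, D.Gd a → D.ρ j ≤ |a - D.c j| →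
          Rat h (κ' / κ / 64) (κ' / κ * 64) y (mob y κ p a) := fun a ha ho =>
        (rat_one a2 b1 (by norm_num) (ne_of_out a1 ho) (b2 a ho) (hh.rat_pole a1 ha ho)).mono
          (by linarith) (by linarith)
      rintro _ _ (rfl | ⟨a, ha, ho, rfl⟩) (rfl | ⟨b, hb, ho', rfl⟩) -
      · exact ⟨κ' / κ, by linarith, by linarith, by simp⟩
      · exact one b hb ho'
      · exact (one a ha ho).symm
      · exact (rat_two a2 b1 (by norm_num) (by norm_num) (ne_of_out a1 ho) (ne_of_out a1 ho')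
          (b2 a ho) (b2 b ho') (hh.rat_Gd ha hb) (hh.rat_pole a1 ha ho)
          (hh.rat_pole a1 hb ho')).mono (by linarith) (by linarith)
    · by_cases q3 : q = y
      · exact ⟨q, q, Or.inl q3, Or.inl q3, le_rfl, le_rfl, by linarith⟩
      have o := mob_inv_out a1 a2 (a4.trans q1) (q2.trans a5) q3
      have e : mob y κ p (mob p κ y q) = q := mob_mob a2.ne' q3
      rcases sandwich (D := D) (mob p κ y q) with hg | ⟨k, u, v, c1, c2, c3, c4, c5, c6, c7, c8⟩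
      · exact ⟨q, q, Or.inr ⟨_, hg, o, e.symm⟩, Or.inr ⟨_, hg, o, e.symm⟩, le_rfl, le_rfl,
          by linarith⟩
      · have hkj : k ≠ j := by rintro rfl; linarith
        have ou : D.ρ j ≤ |u - D.c j| :=
          (out_of_ne hkj (abs_le.2 ⟨by linarith, by linarith⟩)).le
        have ov : D.ρ j ≤ |v - D.c j| :=
          (out_of_ne hkj (abs_le.2 ⟨by linarith, by linarith⟩)).le
        have d1 := mob_le_gap (y := y) hkj a1 a2 c4 c5 (c6.trans c7)
        have d2 := mob_le_gap (y := y) hkj a1 a2 (c4.trans c5) c6 c7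
        rw [e] at d1 d2
        have cr := c8.map (y := y) (κ := κ) (p := p) (ne_of_out a1 (D.E_left k j))
          (ne_of_out a1 ou) (ne_of_out a1 ov) (ne_of_out a1 (D.E_right k j))
        refine ⟨_, _, Or.inr ⟨u, c2, ou, rfl⟩, Or.inr ⟨v, c3, ov, rfl⟩, d1, d2, ?_⟩
        linarith [cr.sand (mob_le_gap hkj a1 a2 le_rfl c4 (by linarith)) d1 d2
          (mob_le_gap hkj a1 a2 (by linarith) c7 le_rfl) (mob_lt_gap hkj a1 a2) q1 q2 (a6 k hkj)]

theorem IsH.qs (hh : D.IsH h) (x t : ℝ) (ht : 0 < t) :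
    h (x + t) - h x ≤ 12288 * (h x - h (x - t)) ∧ h x - h (x - t) ≤ 12288 * (h (x + t) - h x) := by
  obtain ⟨s, -, a1, a2, a3, a4⟩ := hh.bounds x t ht
  constructor <;> linarith

theorem IsH.strictMono (hh : D.IsH h) : StrictMono h := by
  intro a b hab
  obtain ⟨s, hs, a1, -⟩ := hh.bounds a (b - a) (by linarith)
  rw [add_sub_cancel] at a1
  have : 0 < s * (b - a) := mul_pos hs (by linarith)
  linarith

theorem IsH.continuous (hh : D.IsH h) : Continuous h :=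
  continuous_of_qs hh.mono (by norm_num) hh.qs

theorem IsH.near (hh : D.IsH h) : ∃ B, ∀ x, |h x - x / 2| ≤ B := by
  obtain ⟨B, hB⟩ := D.bdd
  refine ⟨B + 2, fun x => ?_⟩
  obtain ⟨b1, b2⟩ := abs_le.1 (hB x)
  rcases E_or (D := D) x with hx | ⟨i, hi⟩
  · rw [hh.adm.1 x hx, abs_le]; constructor <;> linarith
  · obtain ⟨c1, c2⟩ := abs_le.1 (hh.adm.2 i x hi)
    obtain ⟨d1, d2⟩ := abs_lt.1 hi
    have := D.Hgap i x hi.le
    have := D.le1 i
    rw [abs_le]; constructor <;> linarith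

theorem IsH.surjective (hh : D.IsH h) : Function.Surjective h := by
  obtain ⟨B, hB⟩ := hh.near
  refine hh.continuous.surjective ?_ ?_
  · refine Filter.tendsto_atTop_atTop.2 fun b => ⟨2 * (b + B), fun a ha => ?_⟩
    linarith [(abs_le.1 (hB a)).1]
  · refine Filter.tendsto_atBot_atBot.2 fun b => ⟨2 * (b - B), fun a ha => ?_⟩
    linarith [(abs_le.1 (hB a)).2]

theorem IsH.not_affine (hh : D.IsH h) : ¬ ∃ a b : ℝ, ∀ x, h x = a * x + b := by
  rintro ⟨a, b, hab⟩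
  obtain ⟨k⟩ := D.ne
  obtain ⟨B, hB⟩ := hh.near
  have h1 := hab (D.c k + D.ρ k)
  have h2 := hab (D.c k)
  rw [hh.adm.1 _ (D.E_right k), H_right] at h1
  rw [hh.cen] at h2
  have h3 : (a - 1) * D.ρ k = 0 := by linarith
  obtain rfl : a = 1 := by
    rcases mul_eq_zero.1 h3 with c | c
    · linarith
    · exact absurd c (D.pos k).ne'
  have := (abs_le.1 (hB (2 * (B - b) + 2))).2
  rw [hab] at this
  linarith

end Setup

end Pool.Agent.H652Z.Strip
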